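import Pool.Agent.Lib.BSI.Defs

/-!
# BSI.Basic: restriction, amalgamation, the order
-/

set_option autoImplicit false

open Set

namespace Pool.Agent.Lib.BSI

namespace Raw

variable {C : Type}

@[simp] theorem rs_c (p : Raw C) (γ : Ordinal.{0}) : (p.rs γ).c = p.c := rfl

@[simp] theorem am_c (r p : Raw C) (γ : Ordinal.{0}) : (r.am p γ).c = r.c := rfl

@[simp] theorem upd_c (r : Raw C) (β ξ : Ordinal.{0}) : (r.upd β ξ).c = r.c := rfl

theorem rs_f_lt (p : Raw C) {γ β : Ordinal.{0}} (h : β < γ) : (p.rs γ).f β = p.f β := if_pos h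

theorem rs_f_ge (p : Raw C) {γ β : Ordinal.{0}} (h : γ ≤ β) : (p.rs γ).f β = 0 := if_neg (not_lt.2 h)

theorem am_f_lt (r p : Raw C) {γ β : Ordinal.{0}} (h : β < γ) : (r.am p γ).f β = r.f β := if_pos h

theorem am_f_ge (r p : Raw C) {γ β : Ordinal.{0}} (h : γ ≤ β) : (r.am p γ).f β = p.f β :=
  if_neg (not_lt.2 h)

@[simp] theorem upd_f_self (r : Raw C) (β ξ : Ordinal.{0}) : (r.upd β ξ).f β = ξ := by
  simp [upd]

theorem upd_f_ne (r : Raw C) {β η : Ordinal.{0}} (ξ : Ordinal.{0}) (h : η ≠ β) :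
    (r.upd β ξ).f η = r.f η := by
  simp [upd, h]

theorem rs_rs (p : Raw C) {β γ : Ordinal.{0}} (h : β ≤ γ) : (p.rs γ).rs β = p.rs β := by
  ext1
  · rfl
  · funext η
    rcases lt_or_ge η β with h1 | h1
    · rw [rs_f_lt _ h1, rs_f_lt _ (h1.trans_le h), rs_f_lt _ h1]
    · rw [rs_f_ge _ h1, rs_f_ge _ h1]

theorem rs_rs_ge (p : Raw C) {β γ : Ordinal.{0}} (h : γ ≤ β) : (p.rs γ).rs β = p.rs γ := by
  ext1
  · rfl
  · funext η
    rcases lt_or_ge η β with h1 | h1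
    · rw [rs_f_lt _ h1]
    · rw [rs_f_ge _ h1, rs_f_ge _ (h.trans h1)]

theorem supp_rs (p : Raw C) (γ : Ordinal.{0}) : (p.rs γ).supp ⊆ Iio γ := by
  intro β hβ
  by_contra h
  exact hβ (rs_f_ge p (not_lt.1 h))

theorem supp_rs_sub (p : Raw C) (γ : Ordinal.{0}) : (p.rs γ).supp ⊆ p.supp := by
  intro β hβ
  have h : β < γ := supp_rs p γ hβ
  intro h1
  apply hβ
  rw [rs_f_lt _ h, h1]

theorem rs_eq_self {p : Raw C} {γ : Ordinal.{0}} (h : p.supp ⊆ Iio γ) : p.rs γ = p := by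
  ext1
  · rfl
  · funext η
    rcases lt_or_ge η γ with h1 | h1
    · exact rs_f_lt _ h1
    · rw [rs_f_ge _ h1]
      by_contra h2
      exact absurd (h (fun h3 => h2 h3.symm)) (not_lt.2 h1)

theorem am_rs_le (r p : Raw C) {γ β : Ordinal.{0}} (h : β ≤ γ) : (r.am p γ).rs β = r.rs β := by
  ext1
  · rfl
  · funext η
    rcases lt_or_ge η β with h1 | h1
    · rw [rs_f_lt _ h1, rs_f_lt _ h1, am_f_lt _ _ (h1.trans_le h)]
    · rw [rs_f_ge _ h1, rs_f_ge _ h1]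

theorem am_rs_ge (r p : Raw C) {γ β : Ordinal.{0}} (h : γ ≤ β) :
    (r.am p γ).rs β = r.am (p.rs β) γ := by
  ext1
  · rfl
  · funext η
    rcases lt_or_ge η γ with h1 | h1
    · rw [rs_f_lt _ (h1.trans_le h), am_f_lt _ _ h1, am_f_lt _ _ h1]
    · rcases lt_or_ge η β with h2 | h2
      · rw [rs_f_lt _ h2, am_f_ge _ _ h1, am_f_ge _ _ h1, rs_f_lt _ h2]
      · rw [rs_f_ge _ h2, am_f_ge _ _ h1, rs_f_ge _ h2]

theorem am_rs_self {r : Raw C} (p : Raw C) {γ : Ordinal.{0}} (h : r.supp ⊆ Iio γ) :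
    (r.am p γ).rs γ = r := by
  rw [am_rs_le _ _ le_rfl, rs_eq_self h]

theorem supp_am (r p : Raw C) (γ : Ordinal.{0}) : (r.am p γ).supp ⊆ r.supp ∪ p.supp := by
  intro β hβ
  rcases lt_or_ge β γ with h | h
  · left
    intro h1
    exact hβ (by rw [am_f_lt _ _ h, h1])
  · right
    intro h1
    exact hβ (by rw [am_f_ge _ _ h, h1])

/-- the amalgam with the restriction of the second argument -/
theorem am_rs_of_le (r p : Raw C) {γ : Ordinal.{0}} (h : r.supp ⊆ Iio γ) : r.am (p.rs γ) γ = r := by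
  ext1
  · rfl
  · funext η
    rcases lt_or_ge η γ with h1 | h1
    · rw [am_f_lt _ _ h1]
    · rw [am_f_ge _ _ h1, rs_f_ge _ h1]
      by_contra h2
      exact absurd (h (fun h3 => h2 h3.symm)) (not_lt.2 h1)

theorem upd_rs (r : Raw C) {β γ : Ordinal.{0}} (ξ : Ordinal.{0}) (h : γ ≤ β) :
    (r.upd β ξ).rs γ = r.rs γ := by
  ext1
  · rfl
  · funext η
    rcases lt_or_ge η γ with h1 | h1
    · rw [rs_f_lt _ h1, rs_f_lt _ h1, upd_f_ne _ _ (h1.trans_le h).ne]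
    · rw [rs_f_ge _ h1, rs_f_ge _ h1]

theorem upd_rs_self {r : Raw C} {β : Ordinal.{0}} (ξ : Ordinal.{0}) (h : r.supp ⊆ Iio β) :
    (r.upd β ξ).rs β = r := by
  rw [upd_rs _ _ le_rfl, rs_eq_self h]

theorem supp_upd (r : Raw C) (β ξ : Ordinal.{0}) : (r.upd β ξ).supp ⊆ insert β r.supp := by
  intro η hη
  by_cases h : η = β
  · exact Or.inl h
  · right
    intro h1
    exact hη (by rw [upd_f_ne _ _ h, h1])

/-- a raw condition supported below `β + 1` is given by its restriction and its last code -/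
theorem upd_rs_eq {p : Raw C} {β : Ordinal.{0}} (h : p.supp ⊆ Iio (Order.succ β)) :
    (p.rs β).upd β (p.f β) = p := by
  ext1
  · rfl
  · funext η
    rcases lt_trichotomy η β with h1 | h1 | h1
    · rw [upd_f_ne _ _ h1.ne, rs_f_lt _ h1]
    · subst h1
      rw [upd_f_self]
    · rw [upd_f_ne _ _ h1.ne', rs_f_ge _ h1.le]
      by_contra h2
      exact absurd (h (fun h3 => h2 h3.symm)) (not_lt.2 (Order.succ_le_of_lt h1))

end Raw

namespace It

variable {C : Type} [Preorder C] {Rel : ∀ (B : Type) [CompleteBooleanAlgebra B], RelF B}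
variable (S : It C Rel)

theorem okc_zero (β : Ordinal.{0}) (b : S.B β) : S.Okc β b 0 := by
  unfold PreIt.Okc
  rw [S.e_zero]
  exact (Rel (S.B β)).ok_one b

variable {S}

theorem okc_mono {β : Ordinal.{0}} {b b' : S.B β} {ξ : Ordinal.{0}} (h : b' ≤ b) (h1 : S.Okc β b ξ) :
    S.Okc β b' ξ := (Rel (S.B β)).ok_mono h h1

theorem lec_refl {β : Ordinal.{0}} {b : S.B β} {ξ : Ordinal.{0}} (h : S.Okc β b ξ) : S.Lec β b ξ ξ :=
  (Rel (S.B β)).le_refl h

theorem lec_mono {β : Ordinal.{0}} {b b' : S.B β} {ξ ξ' : Ordinal.{0}} (h : b' ≤ b)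
    (h1 : S.Lec β b ξ' ξ) : S.Lec β b' ξ' ξ := (Rel (S.B β)).le_mono h h1

theorem lec_trans {β : Ordinal.{0}} {b : S.B β} {ξ ξ' ξ'' : Ordinal.{0}} (h2 : S.Okc β b ξ'')
    (h1 : S.Okc β b ξ') (h0 : S.Okc β b ξ) (h : S.Lec β b ξ'' ξ') (h' : S.Lec β b ξ' ξ) :
    S.Lec β b ξ'' ξ := (Rel (S.B β)).le_trans h2 h1 h0 h h'

theorem lec_zero {β : Ordinal.{0}} {b : S.B β} {ξ : Ordinal.{0}} (h : S.Okc β b ξ) : S.Lec β b ξ 0 := by
  unfold PreIt.Lec
  rw [S.e_zero]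
  exact (Rel (S.B β)).le_one h

theorem _root_.Pool.Agent.Lib.BSI.PreIt.In.mono {I J : Set Ordinal.{0}} {p : Raw C} (h : S.In I p) (hIJ : p.supp ⊆ J) : S.In J p :=
  ⟨hIJ, h.2.1, h.2.2.1, h.2.2.2⟩

theorem _root_.Pool.Agent.Lib.BSI.PreIt.In.univ {I : Set Ordinal.{0}} {p : Raw C} (h : S.In I p) : S.In Set.univ p :=
  h.mono (subset_univ _)

theorem _root_.Pool.Agent.Lib.BSI.PreIt.In.rs {I : Set Ordinal.{0}} {p : Raw C} (h : S.In I p) (γ : Ordinal.{0}) :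
    S.In (Iio γ) (p.rs γ) := by
  refine ⟨Raw.supp_rs p γ, h.2.1.mono (Raw.supp_rs_sub p γ), fun β => ?_, fun β => ?_⟩
  · rcases lt_or_ge β γ with h1 | h1
    · rw [Raw.rs_f_lt _ h1]
      exact h.2.2.1 β
    · rw [Raw.rs_f_ge _ h1]
      exact S.ζ_pos β
  · rcases lt_or_ge β γ with h1 | h1
    · rw [Raw.rs_f_lt _ h1, Raw.rs_rs _ h1.le]
      exact h.2.2.2 β
    · rw [Raw.rs_f_ge _ h1]
      exact okc_zero S β _

theorem _root_.Pool.Agent.Lib.BSI.PreIt.In.rs' {I : Set Ordinal.{0}} {p : Raw C} (h : S.In I p) (γ : Ordinal.{0}) :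
    S.In I (p.rs γ) :=
  (h.rs γ).mono ((Raw.supp_rs_sub p γ).trans h.1)

theorem lerefl {I : Set Ordinal.{0}} {p : Raw C} (h : S.In I p) : S.LE p p :=
  ⟨le_rfl, fun β => lec_refl (h.2.2.2 β)⟩

theorem lers {p q : Raw C} (h : S.LE q p)
    (γ : Ordinal.{0}) : S.LE (q.rs γ) (p.rs γ) := by
  refine ⟨h.1, fun β => ?_⟩
  rcases lt_or_ge β γ with h1 | h1
  · rw [Raw.rs_f_lt _ h1, Raw.rs_f_lt _ h1, Raw.rs_rs _ h1.le]
    exact h.2 β
  · rw [Raw.rs_f_ge _ h1, Raw.rs_f_ge _ h1]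
    exact lec_refl (okc_zero S β _)

/-- every condition is below its restrictions -/
theorem lers_self {I : Set Ordinal.{0}} {p : Raw C} (hp : S.In I p) (γ : Ordinal.{0}) :
    S.LE p (p.rs γ) := by
  refine ⟨le_rfl, fun β => ?_⟩
  rcases lt_or_ge β γ with h1 | h1
  · rw [Raw.rs_f_lt _ h1]
    exact lec_refl (hp.2.2.2 β)
  · rw [Raw.rs_f_ge _ h1]
    exact lec_zero (hp.2.2.2 β)

theorem em_rs_mono {I J : Set Ordinal.{0}} {p q : Raw C} (hq : S.In I q) (hp : S.In J p)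
    (h : S.LE q p) (γ : Ordinal.{0}) : S.em γ (q.rs γ) ≤ S.em γ (p.rs γ) :=
  S.em_mono γ _ _ (hp.rs γ) (hq.rs γ) (lers h γ)

theorem letrans {I J L : Set Ordinal.{0}} {p q r : Raw C} (hr : S.In I r) (hq : S.In J q)
    (hp : S.In L p) (h : S.LE r q) (h' : S.LE q p) : S.LE r p := by
  refine ⟨h.1.trans h'.1, fun β => ?_⟩
  have h1 := em_rs_mono hr hq h β
  have h2 := em_rs_mono hq hp h' β
  exact lec_trans (hr.2.2.2 β) (okc_mono h1 (hq.2.2.2 β)) (okc_mono (h1.trans h2) (hp.2.2.2 β))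
    (h.2 β) (lec_mono h1 (h'.2 β))

/-- amalgamation -/
theorem am_spec {I : Set Ordinal.{0}} {p r : Raw C} {γ : Ordinal.{0}} (hp : S.In I p)
    (hr : S.In (Iio γ) r) (h : S.LE r (p.rs γ)) :
    S.In (r.supp ∪ p.supp) (r.am p γ) ∧ S.LE (r.am p γ) p := by
  have key : ∀ β, γ ≤ β → S.In (Iio β) (r.am (p.rs β) γ) ∧ S.LE (r.am (p.rs β) γ) (p.rs β) := by
    intro β
    induction β using WellFoundedLT.induction with
    | ind β ih =>
      intro hγβ
      have hIn : S.In (Iio β) (r.am (p.rs β) γ) := by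
        refine ⟨?_, ?_, ?_, ?_⟩
        · refine (Raw.supp_am _ _ _).trans (union_subset ?_ (Raw.supp_rs p β))
          exact hr.1.trans (fun x hx => lt_of_lt_of_le hx hγβ)
        · exact (hr.2.1.union (hp.2.1.mono (Raw.supp_rs_sub p β))).mono (Raw.supp_am _ _ _)
        · intro η
          rcases lt_or_ge η γ with h1 | h1
          · rw [Raw.am_f_lt _ _ h1]
            exact hr.2.2.1 η
          · rw [Raw.am_f_ge _ _ h1]
            exact (hp.rs β).2.2.1 η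
        · intro η
          rcases lt_or_ge η γ with h1 | h1
          · rw [Raw.am_f_lt _ _ h1, Raw.am_rs_le _ _ h1.le]
            exact hr.2.2.2 η
          · rw [Raw.am_f_ge _ _ h1]
            rcases lt_or_ge η β with h2 | h2
            · rw [Raw.rs_f_lt _ h2, Raw.am_rs_ge _ _ h1, Raw.rs_rs _ h2.le]
              obtain ⟨h3, h4⟩ := ih η h2 h1
              exact okc_mono (S.em_mono η _ _ (hp.rs η) h3 h4) (hp.2.2.2 η)
            · rw [Raw.rs_f_ge _ h2]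
              exact okc_zero S η _
      refine ⟨hIn, h.1, fun η => ?_⟩
      rcases lt_or_ge η γ with h1 | h1
      · rw [Raw.am_f_lt _ _ h1, Raw.am_rs_le _ _ h1.le, Raw.rs_f_lt _ (h1.trans_le hγβ)]
        have h2 := h.2 η
        rwa [Raw.rs_f_lt _ h1] at h2
      · rw [Raw.am_f_ge _ _ h1]
        have h2 := hIn.2.2.2 η
        rw [Raw.am_f_ge _ _ h1] at h2
        exact lec_refl h2
  have hIn : S.In (r.supp ∪ p.supp) (r.am p γ) := by
    refine ⟨Raw.supp_am _ _ _, (hr.2.1.union hp.2.1).mono (Raw.supp_am _ _ _), ?_, ?_⟩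
    · intro η
      rcases lt_or_ge η γ with h1 | h1
      · rw [Raw.am_f_lt _ _ h1]
        exact hr.2.2.1 η
      · rw [Raw.am_f_ge _ _ h1]
        exact hp.2.2.1 η
    · intro η
      rcases lt_or_ge η γ with h1 | h1
      · rw [Raw.am_f_lt _ _ h1, Raw.am_rs_le _ _ h1.le]
        exact hr.2.2.2 η
      · rw [Raw.am_f_ge _ _ h1, Raw.am_rs_ge _ _ h1]
        obtain ⟨h3, h4⟩ := key η h1
        exact okc_mono (S.em_mono η _ _ (hp.rs η) h3 h4) (hp.2.2.2 η)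
  refine ⟨hIn, h.1, fun η => ?_⟩
  rcases lt_or_ge η γ with h1 | h1
  · rw [Raw.am_f_lt _ _ h1, Raw.am_rs_le _ _ h1.le]
    have h2 := h.2 η
    rwa [Raw.rs_f_lt _ h1] at h2
  · rw [Raw.am_f_ge _ _ h1]
    have h2 := hIn.2.2.2 η
    rw [Raw.am_f_ge _ _ h1] at h2
    exact lec_refl h2

/-- amalgamation inside an initial segment -/
theorem am_In {I : Set Ordinal.{0}} {p r : Raw C} {γ : Ordinal.{0}} (hp : S.In I p)
    (hr : S.In (Iio γ) r) (hI : r.supp ⊆ I) (h : S.LE r (p.rs γ)) : S.In I (r.am p γ) :=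
  (am_spec hp hr h).1.mono ((Raw.supp_am _ _ _).trans (union_subset hI hp.1))

theorem am_le {I : Set Ordinal.{0}} {p r : Raw C} {γ : Ordinal.{0}} (hp : S.In I p)
    (hr : S.In (Iio γ) r) (h : S.LE r (p.rs γ)) : S.LE (r.am p γ) p := (am_spec hp hr h).2

/-- conditions with one more coordinate -/
theorem upd_In {r : Raw C} {β ξ : Ordinal.{0}} (hr : S.In (Iio β) r) (hξ : ξ < S.ζ β)
    (h : S.Okc β (S.em β r) ξ) : S.In (Iio (Order.succ β)) (r.upd β ξ) := by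
  refine ⟨?_, ?_, fun η => ?_, fun η => ?_⟩
  · refine (Raw.supp_upd _ _ _).trans (insert_subset (Order.lt_succ β) ?_)
    exact hr.1.trans (fun x hx => lt_trans hx (Order.lt_succ β))
  · exact (hr.2.1.insert β).mono (Raw.supp_upd _ _ _)
  · by_cases h1 : η = β
    · subst h1
      rw [Raw.upd_f_self]
      exact hξ
    · rw [Raw.upd_f_ne _ _ h1]
      exact hr.2.2.1 η
  · rcases lt_trichotomy η β with h1 | h1 | h1
    · rw [Raw.upd_f_ne _ _ h1.ne, Raw.upd_rs _ _ h1.le]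
      exact hr.2.2.2 η
    · subst h1
      rw [Raw.upd_f_self, Raw.upd_rs_self _ hr.1]
      exact h
    · rw [Raw.upd_f_ne _ _ h1.ne']
      have h2 : r.f η = 0 := by
        by_contra h3
        exact absurd (hr.1 h3) (not_lt.2 h1.le)
      rw [h2]
      exact okc_zero S η _

theorem upd_LE {r s : Raw C} {β ξ ξ' : Ordinal.{0}} (hr : S.In (Iio β) r) (hs : S.In (Iio β) s)
    (h : S.LE r s) (h1 : S.Lec β (S.em β r) ξ ξ') : S.LE (r.upd β ξ) (s.upd β ξ') := by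
  refine ⟨h.1, fun η => ?_⟩
  rcases lt_trichotomy η β with h2 | h2 | h2
  · rw [Raw.upd_f_ne _ _ h2.ne, Raw.upd_f_ne _ _ h2.ne, Raw.upd_rs _ _ h2.le]
    exact h.2 η
  · subst h2
    rw [Raw.upd_f_self, Raw.upd_f_self, Raw.upd_rs_self _ hr.1]
    exact h1
  · have h3 : ∀ t : Raw C, S.In (Iio β) t → t.f η = 0 := by
      intro t ht
      by_contra h4
      exact absurd (ht.1 h4) (not_lt.2 h2.le)
    rw [Raw.upd_f_ne _ _ h2.ne', Raw.upd_f_ne _ _ h2.ne', h3 r hr, h3 s hs]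
    exact lec_refl (okc_zero S η _)

/-- conditions below a condition and below an element of the algebra -/
theorem exists_le {γ : Ordinal.{0}} {p : Raw C} {b : S.B γ} (hp : S.In (Iio γ) p)
    (h : S.em γ p ⊓ b ≠ ⊥) : ∃ r, S.In (Iio γ) r ∧ S.LE r p ∧ S.em γ r ≤ b := by
  obtain ⟨q, hq, hqb⟩ := S.em_dense γ _ h
  have h1 : S.em γ p ⊓ S.em γ q ≠ ⊥ := by
    intro h2
    apply S.em_ne γ q hq
    rw [← le_bot_iff, ← h2]
    exact le_inf (hqb.trans inf_le_left) le_rfl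
  obtain ⟨r, hr, hrp, hrq⟩ := S.em_compat γ p q hp hq h1
  exact ⟨r, hr, hrp, (S.em_mono γ _ _ hq hr hrq).trans (hqb.trans inf_le_right)⟩

theorem exists_le' {γ : Ordinal.{0}} {p : Raw C} {b : S.B γ} (hp : S.In (Iio γ) p)
    (hb : b ≠ ⊥) (h : b ≤ S.em γ p) : ∃ r, S.In (Iio γ) r ∧ S.LE r p ∧ S.em γ r ≤ b :=
  exists_le hp (by rwa [inf_eq_right.2 h])

/-- a condition is below `b` if densely many conditions below it are -/
theorem em_le_of {γ : Ordinal.{0}} {p : Raw C} {b : S.B γ} (hp : S.In (Iio γ) p)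
    (h : ∀ r, S.In (Iio γ) r → S.LE r p → S.em γ r ⊓ b ≠ ⊥) : S.em γ p ≤ b := by
  by_contra hcon
  have h1 : S.em γ p ⊓ bᶜ ≠ ⊥ := by
    intro h2
    exact hcon (by rwa [← disjoint_iff, disjoint_compl_right_iff] at h2)
  obtain ⟨r, hr, hrp, hrb⟩ := exists_le hp h1
  apply h r hr hrp
  rw [← le_bot_iff, ← compl_inf_self b]
  exact inf_le_inf_right _ hrb

/-- predense sets -/
theorem em_le_iSup_of_pd {γ : Ordinal.{0}} {q : Raw C} {Q : Set (Raw C)} (hq : S.In (Iio γ) q)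
    (hQ : ∀ d ∈ Q, S.In (Iio γ) d) (h : S.Pd (Iio γ) q Q) : S.em γ q ≤ ⨆ d ∈ Q, S.em γ d := by
  apply em_le_of hq
  intro r hr hrq
  obtain ⟨r', hr', hr'r, d, hd, hr'd⟩ := h r hr hrq
  intro h1
  apply S.em_ne γ r' hr'
  rw [← le_bot_iff, ← h1]
  exact le_inf (S.em_mono γ _ _ hr hr' hr'r)
    ((S.em_mono γ _ _ (hQ d hd) hr' hr'd).trans (le_iSup₂_of_le d hd le_rfl))

end It

end Pool.Agent.Lib.BSI
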