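import Pool.Agent.Lib.BSI.Proj

/-!
# BSI.CSDef: a finite controlled family over a condition
-/

set_option autoImplicit false

open Set

namespace Pool.Agent.Lib.BSI.It

variable {C : Type} [Preorder C] {Rel : ∀ (B : Type) [CompleteBooleanAlgebra B], RelF B}

/-- Over the condition `r` below `β` there are a controlled extension `z'` of the object with the code `ξ` and
finitely many elements `d i` of `D` (conditions supported below `β + 1`) which are predense below `(r, z')`. -/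
def CS (S : It C Rel) (β ξ : Ordinal.{0}) (K : ℕ) (ε : ℝ) (D : Set (Raw C)) (r : Raw C) : Prop :=
  ∃ (z' : (Rel (S.B β)).Obj) (n : ℕ) (d : Fin n → Raw C),
    (Rel (S.B β)).Ok (S.em β r) z' ∧ (Rel (S.B β)).Ctl K ε (S.em β r) z' (S.e β ξ) ∧ (∀ i, d i ∈ D) ∧
    ∀ (t : Raw C) (ρ : Ordinal.{0}), S.In (Iio β) t → S.em β t ≤ S.em β r → ρ < S.ζ β →
      S.Okc β (S.em β t) ρ → (Rel (S.B β)).Le (S.em β t) (S.e β ρ) z' →
      ∃ (i : Fin n) (t' : Raw C), S.In (Iio (Order.succ β)) t' ∧ S.LE t' (t.upd β ρ) ∧ S.LE t' (d i)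

variable {S : It C Rel}

theorem CS.mono {β ξ : Ordinal.{0}} {K : ℕ} {ε : ℝ} {D : Set (Raw C)} {r r' : Raw C}
    (h : S.CS β ξ K ε D r) (hr : S.em β r' ≤ S.em β r) : S.CS β ξ K ε D r' := by
  obtain ⟨z', n, d, h1, h2, h3, h4⟩ := h
  exact ⟨z', n, d, (Rel (S.B β)).ok_mono hr h1, (Rel (S.B β)).ctl_mono hr h2, h3,
    fun t ρ ht htr => h4 t ρ ht (htr.trans hr)⟩

end Pool.Agent.Lib.BSI.It
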