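import Pool.Agent.Lib.BSI.Proj

/-!
# BSI.Cof: every element of the completion of all conditions comes from some `B γ`

MODULE TO PROVE. (This replaces the chain condition.)

PROOF. `upg_up`: compare conditions with `em_le_upg`, `em_le_up` and `Raw.rs_rs` (`Den.eq_of`).
`exists_closed`: for `h : Ordinal → Ordinal` there is `γ` with `h α ≤ γ` for all `α < γ` such that every countable subset of `Iio γ` is
contained in `Iio α` for some `α < γ`: recursion `g i = (⨆ j < i, max (h (g j)) (g j)) + 1` (strictly increasing), `γ = ⨆ i < ω₁, g i`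
(`ω₁ = (ℵ₁).ord`, regular: `Cardinal.isRegular_aleph_one`, countable sups of ordinals `< ω₁` are `< ω₁`, `Ordinal.iSup_lt_ord` or similar).
`capture`: for every condition `p` choose `a p ≤ p` with `em (a p) ≤ b` or `em (a p) ≤ bᶜ`. The conditions with support in `Iio α` form a small type
(inject them into `C × (Iio α → Iio (⨆ β < α, S.ζ β))`), so there is an ordinal `h α` such that the supports of all `a p`, `p` supported
below `α`, are contained in `Iio (h α)` (the support of `a p` is countable, hence bounded: `Ordinal.bddAbove_of_small`). Take `γ` from `exists_closed`.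
Then for every condition `p` with support below `γ` (so below some `α < γ`) `a p` has support below `γ`. Put
`b' = ⨆ {emc γ x | x : S.Cnd (Iio γ), em x ≤ b}` (`x` viewed in `S.Cnd univ`). `b = upg em (S.emc γ) (S.res γ) b'` by `Den.eq_of` and `em_le_upg`
(hypotheses `S.res_mono`, `S.res_proj`): (1) `em p ≤ b` implies `em γ (p.rs γ) ≤ b'`: for `r ≤ p.rs γ` supported below `γ` the condition `x = a r` is
supported below `γ`, `x.am p γ` is below `p` and below `x`, so `em x ≤ bᶜ` is impossible, `em x ≤ b` and `emc γ x ≤ b'`.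
(2) `em γ (p.rs γ) ≤ b'` implies `em p ≤ b`: for `r ≤ p` we have `em γ (r.rs γ) ≤ b'`, so some `x` with `em x ≤ b` is compatible with `r.rs γ`; let `t` be below
both; `t.am r γ` is below `r` and below `x`.
`captures`: supremum of the `γ i` and `upg_up`.
-/

set_option autoImplicit false

open Set

namespace Pool.Agent.Lib.BSI

universe u

theorem exists_closed (h : Ordinal.{0} → Ordinal.{0}) :
    ∃ γ : Ordinal.{0}, (∀ α < γ, h α ≤ γ) ∧
      ∀ A : Set Ordinal.{0}, A.Countable → A ⊆ Iio γ → ∃ α < γ, A ⊆ Iio α := by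
  obtain ⟨H, hH⟩ : ∃ H : Ordinal.{0} → Ordinal.{0}, ∀ α β, α < β → h α ≤ H β :=
    ⟨fun β => ⨆ α : Iio β, h α.1, fun α β hαβ => Ordinal.le_iSup (fun α : Iio β => h α.1) ⟨α, hαβ⟩⟩
  obtain ⟨g, hg⟩ : ∃ g : Ordinal.{0} → Ordinal.{0}, ∀ i j, j < i → H (g j) ≤ g i ∧ g j < g i := by
    let F : (i : Ordinal.{0}) → ((j : Ordinal.{0}) → j < i → Ordinal.{0}) → Ordinal.{0} := fun i G =>
      Order.succ (⨆ j : Iio i, max (H (G j.1 j.2)) (G j.1 j.2))
    refine ⟨WellFoundedLT.fix F, fun i j hj => ?_⟩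
    have e : WellFoundedLT.fix F i = F i fun j _ => WellFoundedLT.fix F j := WellFoundedLT.fix_eq F i
    have l := Ordinal.le_iSup
      (fun j : Iio i => max (H (WellFoundedLT.fix F j.1)) (WellFoundedLT.fix F j.1)) ⟨j, hj⟩
    rw [e]
    exact ⟨(le_max_left _ _).trans (l.trans (Order.le_succ _)),
      Order.lt_succ_of_le ((le_max_right _ _).trans l)⟩
  have hmono : ∀ i j, j ≤ i → g j ≤ g i := fun i j hij => by
    rcases hij.lt_or_eq with h1 | h1
    · exact (hg i j h1).2.le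
    · rw [h1]
  have hsucc : ∀ i, i < Ordinal.omega.{0} 1 → Order.succ i < Ordinal.omega.{0} 1 := fun i hi =>
    (Cardinal.isSuccLimit_omega 1).succ_lt hi
  have hle : ∀ i, i < Ordinal.omega.{0} 1 → g i ≤ ⨆ i : Iio (Ordinal.omega.{0} 1), g i.1 := fun i hi =>
    Ordinal.le_iSup (fun i : Iio (Ordinal.omega.{0} 1) => g i.1) ⟨i, hi⟩
  refine ⟨⨆ i : Iio (Ordinal.omega.{0} 1), g i.1, fun α hα => ?_, fun A hA hAγ => ?_⟩
  · obtain ⟨⟨i, hi⟩, hαi⟩ := Ordinal.lt_iSup_iff.1 hα
    exact (hH α (g i) hαi).trans (((hg (Order.succ i) i (Order.lt_succ i)).1).trans (hle _ (hsucc i hi)))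
  · have h1 : ∀ a : A, ∃ i, i < Ordinal.omega.{0} 1 ∧ a.1 < g i := fun a => by
      obtain ⟨⟨i, hi⟩, hai⟩ := Ordinal.lt_iSup_iff.1 (hAγ a.2)
      exact ⟨i, hi, hai⟩
    choose i hi hai using h1
    have : Countable A := hA.to_subtype
    have h2 : ⨆ a, i a < Ordinal.omega.{0} 1 := Ordinal.iSup_lt_omega_one hi
    refine ⟨g (⨆ a, i a), ((hg _ _ (Order.lt_succ _)).2).trans_le (hle _ (hsucc _ h2)), fun a ha => ?_⟩
    exact (hai ⟨a, ha⟩).trans_le (hmono _ _ (Ordinal.le_iSup i ⟨a, ha⟩))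

namespace It

variable {C : Type} [Preorder C] {Rel : ∀ (B : Type) [CompleteBooleanAlgebra B], RelF B}
variable {S : It C Rel}

theorem upg_up {B : Type u} [CompleteBooleanAlgebra B] {em : S.Cnd univ → B} (h : Den em)
    {γ δ : Ordinal.{0}} (hγ : γ ≤ δ) (b : S.B γ) :
    upg em (S.emc δ) (S.res δ) (S.up γ δ b) = upg em (S.emc γ) (S.res γ) b := by
  apply h.eq_of
  intro p
  rw [em_le_upg h (S.den δ) (S.res_mono δ) (S.res_proj (subset_univ _)),
    em_le_upg h (S.den γ) (S.res_mono γ) (S.res_proj (subset_univ _))]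
  have h1 := em_le_up hγ (p.2.rs δ) b
  rw [Raw.rs_rs _ hγ] at h1
  exact h1

namespace CofAux

/-- the inclusion -/
def inc {γ : Ordinal.{0}} (x : S.Cnd (Iio γ)) : S.Cnd univ := ⟨x.1, x.2.univ⟩

theorem small_cnd (α : Ordinal.{0}) : Small.{0} {p : S.Cnd univ // p.1.supp ⊆ Iio α} := by
  have hinj : Function.Injective (fun p : {p : S.Cnd univ // p.1.supp ⊆ Iio α} =>
      ((p.1.1.c, fun x => ⟨p.1.1.f x.1, p.1.2.2.2.1 x.1⟩) : C × (∀ x : Iio α, Iio (S.ζ x.1)))) := by
    rintro ⟨⟨p, hp⟩, hpα⟩ ⟨⟨q, hq⟩, hqα⟩ h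
    have h1 : p.c = q.c := congrArg Prod.fst h
    have h2 := congrArg Prod.snd h
    have h3 : p = q := by
      ext1
      · exact h1
      · funext η
        rcases lt_or_ge η α with h4 | h4
        · have h5 := congrFun h2 ⟨η, h4⟩
          exact congrArg Subtype.val h5
        · have h5 : p.f η = 0 := by
            by_contra h6
            exact absurd (hpα h6) (not_lt.2 h4)
          have h6 : q.f η = 0 := by
            by_contra h6
            exact absurd (hqα h6) (not_lt.2 h4)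
          rw [h5, h6]
    subst h3
    rfl
  exact small_of_injective hinj

/-- the condition `x` below `γ` put on top of `p` -/
theorem am_both {γ : Ordinal.{0}} (p : S.Cnd univ) (x : S.Cnd (Iio γ)) (h : x ≤ S.res γ p) :
    ∃ q : S.Cnd univ, q ≤ p ∧ q ≤ inc x := by
  refine ⟨⟨x.1.am p.1 γ, am_In p.2 x.2 (subset_univ _) h⟩, am_le p.2 x.2 h, ?_⟩
  have h1 := lers_self (am_In p.2 x.2 (subset_univ _) h) γ
  rw [Raw.am_rs_self _ x.2.1] at h1
  exact h1

end CofAux

open CofAux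

theorem capture {B : Type u} [CompleteBooleanAlgebra B] {em : S.Cnd univ → B} (h : Den em) (b : B) :
    ∃ (γ : Ordinal.{0}) (b' : S.B γ), b = upg em (S.emc γ) (S.res γ) b' := by
  have h1 : ∀ p : S.Cnd univ, ∃ q ≤ p, em q ≤ b ∨ em q ≤ bᶜ := by
    intro p
    by_cases h2 : em p ⊓ b = ⊥
    · exact ⟨p, le_rfl, Or.inr (le_compl_iff_disjoint_right.2 (disjoint_iff.2 h2))⟩
    · obtain ⟨q, hq, hqb⟩ := h.exists_le h2
      exact ⟨q, hq, Or.inl hqb⟩
  choose a ha ha' using h1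
  have hsm : ∀ α : Ordinal.{0}, Small.{0} {p : S.Cnd univ // p.1.supp ⊆ Iio α} := small_cnd
  obtain ⟨H, hH⟩ : ∃ H : Ordinal.{0} → Ordinal.{0}, ∀ α, ∀ p : S.Cnd univ, p.1.supp ⊆ Iio α →
      (a p).1.supp ⊆ Iio (H α) := by
    refine ⟨fun α => ⨆ p : {p : S.Cnd univ // p.1.supp ⊆ Iio α}, Order.succ (sSup (a p.1).1.supp),
      fun α p hp β hβ => ?_⟩
    have h2 : (a p).1.supp.Countable := (a p).2.2.1
    have h3 : Countable (a p).1.supp := h2.to_subtype
    have h4 : β ≤ sSup (a p).1.supp := le_csSup Ordinal.bddAbove_of_small hβ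
    exact (Order.lt_succ_of_le h4).trans_le (Ordinal.le_iSup
      (fun p : {p : S.Cnd univ // p.1.supp ⊆ Iio α} => Order.succ (sSup (a p.1).1.supp)) ⟨p, hp⟩)
  obtain ⟨γ, hγ, hγ'⟩ := exists_closed H
  have hcl : ∀ r : S.Cnd (Iio γ), (a (inc r)).1.supp ⊆ Iio γ := by
    intro r
    obtain ⟨α, hα, hrα⟩ := hγ' r.1.supp r.2.2.1 r.2.1
    exact (hH α (inc r) hrα).trans (Iio_subset_Iio (hγ α hα))
  refine ⟨γ, ⨆ x : {x : S.Cnd (Iio γ) // em (inc x) ≤ b}, S.emc γ x.1, ?_⟩
  apply h.eq_of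
  intro p
  rw [em_le_upg h (S.den γ) (S.res_mono γ) (S.res_proj (subset_univ _))]
  constructor
  · intro hp
    apply (S.den γ).em_le_of
    intro r hr h2
    let x : S.Cnd (Iio γ) := ⟨(a (inc r)).1, (a (inc r)).2.mono (hcl r)⟩
    have hxr : x ≤ r := ha (inc r)
    obtain ⟨q, hqp, hqx⟩ := am_both p x (hxr.trans hr)
    have hqx' : em q ≤ em (a (inc r)) := h.mono hqx
    have hxb : em (a (inc r)) ≤ b := by
      rcases ha' (inc r) with h3 | h3
      · exact h3
      · exfalso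
        apply h.ne q
        rw [← le_bot_iff, ← inf_compl_self b]
        exact le_inf ((h.mono hqp).trans hp) (hqx'.trans h3)
    apply (S.den γ).ne x
    rw [← le_bot_iff, ← h2]
    exact le_inf ((S.den γ).mono hxr)
      (le_iSup (fun x : {x : S.Cnd (Iio γ) // em (inc x) ≤ b} => S.emc γ x.1) ⟨x, hxb⟩)
  · intro hp
    apply h.em_le_of
    intro r hr h2
    have h3 : S.emc γ (S.res γ r) ≤ ⨆ x : {x : S.Cnd (Iio γ) // em (inc x) ≤ b}, S.emc γ x.1 :=
      ((S.den γ).mono (S.res_mono γ _ _ hr)).trans hp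
    obtain ⟨t, ht, ⟨x, hx⟩, htx⟩ := (S.den γ).exists_em_iSup h3
    have h4 : S.emc γ t ⊓ S.emc γ x ≠ ⊥ := by
      rw [inf_eq_left.2 htx]
      exact (S.den γ).ne t
    obtain ⟨w, hwt, hwx⟩ := (S.den γ).compat t x h4
    obtain ⟨q, hqr, hqw⟩ := am_both r w (hwt.trans ht)
    have hwx' : inc w ≤ inc x := hwx
    apply h.ne q
    rw [← le_bot_iff, ← h2]
    exact le_inf (h.mono hqr) ((h.mono (hqw.trans hwx')).trans hx)

theorem captures {B : Type u} [CompleteBooleanAlgebra B] {em : S.Cnd univ → B} (h : Den em)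
    {ι : Type} (b : ι → B) :
    ∃ γ : Ordinal.{0}, ∀ i, ∃ b' : S.B γ, b i = upg em (S.emc γ) (S.res γ) b' := by
  choose γ b' hb using fun i => capture h (b i)
  refine ⟨⨆ i, γ i, fun i => ⟨S.up (γ i) (⨆ i, γ i) (b' i), ?_⟩⟩
  rw [upg_up h (Ordinal.le_iSup γ i)]
  exact hb i

end It

end Pool.Agent.Lib.BSI
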