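import Pool.Agent.Lib.BSI.Proj
import Pool.Agent.Lib.WkD.RO

/-!
# BSI.Exist: existence of iteration systems

Recursion on the coordinate with values in the fixed type `Dat C`: the bound for the codes, the validity of a code over a
raw condition, the order of two codes over a raw condition. The algebra at `γ` is the regular open algebra of the set of
conditions supported below `γ` (a small set, moved to `Type` by `Shrink`), ordered by the reflexive transitive closure of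
the order of the conditions; a posteriori this order is transitive.
-/

set_option autoImplicit false

open Set

namespace Pool.Agent.Lib.BSI

namespace ExistAux

/-- The data of one coordinate. -/
structure Dat (C : Type) where
  ζ : Ordinal.{0}
  ok : Raw C → Ordinal.{0} → Prop
  le : Raw C → Ordinal.{0} → Ordinal.{0} → Prop

variable {C : Type}

/-- The conditions supported below `γ`. -/
def V (E : Ordinal.{0} → Dat C) (γ : Ordinal.{0}) : Set (Raw C) :=
  {p | p.supp ⊆ Iio γ ∧ p.supp.Countable ∧ (∀ β, β < γ → p.f β < (E β).ζ) ∧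
    ∀ β, β < γ → (E β).ok p (p.f β)}

/-- The order of the conditions. -/
def L [Preorder C] (E : Ordinal.{0} → Dat C) (γ : Ordinal.{0}) (q p : Raw C) : Prop :=
  q.c ≤ p.c ∧ ∀ β, β < γ → (E β).le q (q.f β) (p.f β)

theorem f_eq_zero {p : Raw C} {γ β : Ordinal.{0}} (h : p.supp ⊆ Iio γ) (h1 : γ ≤ β) : p.f β = 0 := by
  by_contra h2
  exact absurd (h h2) (not_lt.2 h1)

theorem small_V (E : Ordinal.{0} → Dat C) (γ : Ordinal.{0}) : Small.{0} (V E γ) := by
  have hs : Small.{0} (C × ((β : Iio γ) → Iio (E β.1).ζ)) := inferInstance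
  refine @small_of_injective _ _ hs
    (fun p : V E γ => (p.1.c, fun β : Iio γ => (⟨p.1.f β.1, p.2.2.2.1 β.1 β.2⟩ : Iio (E β.1).ζ))) ?_
  intro p q h
  have h1 : p.1.c = q.1.c := congrArg Prod.fst h
  have h2 := congrArg Prod.snd h
  apply Subtype.ext
  ext1
  · exact h1
  · funext β
    rcases lt_or_ge β γ with h3 | h3
    · have h4 := congrFun h2 ⟨β, h3⟩
      exact congrArg Subtype.val h4
    · rw [f_eq_zero p.2.1 h3, f_eq_zero q.2.1 h3]

attribute [local instance] small_V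

/-- The conditions supported below `γ` as a type in `Type`. -/
def Pt (E : Ordinal.{0} → Dat C) (γ : Ordinal.{0}) : Type := Shrink.{0} (V E γ)

/-- The underlying raw condition. -/
noncomputable def Pt.raw {E : Ordinal.{0} → Dat C} {γ : Ordinal.{0}} (a : Pt E γ) : Raw C :=
  ((equivShrink (V E γ)).symm a).1

theorem Pt.raw_mem {E : Ordinal.{0} → Dat C} {γ : Ordinal.{0}} (a : Pt E γ) : a.raw ∈ V E γ :=
  ((equivShrink (V E γ)).symm a).2

/-- A condition as an element of `Pt`. -/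
noncomputable def Pt.mk {E : Ordinal.{0} → Dat C} {γ : Ordinal.{0}} (p : Raw C) (h : p ∈ V E γ) : Pt E γ :=
  equivShrink (V E γ) ⟨p, h⟩

theorem Pt.raw_mk {E : Ordinal.{0} → Dat C} {γ : Ordinal.{0}} (p : Raw C) (h : p ∈ V E γ) :
    (Pt.mk p h : Pt E γ).raw = p := by
  unfold Pt.raw Pt.mk
  rw [Equiv.symm_apply_apply]

theorem Pt.mk_raw {E : Ordinal.{0} → Dat C} {γ : Ordinal.{0}} (a : Pt E γ) :
    Pt.mk a.raw a.raw_mem = a := by
  unfold Pt.raw Pt.mk
  exact Equiv.apply_symm_apply _ _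

variable [Preorder C]

instance (E : Ordinal.{0} → Dat C) (γ : Ordinal.{0}) : Preorder (Pt E γ) where
  le a b := Relation.ReflTransGen (fun x y : Pt E γ => L E γ x.raw y.raw) a b
  le_refl _ := Relation.ReflTransGen.refl
  le_trans _ _ _ h h' := h.trans h'

theorem Pt.le_def {E : Ordinal.{0} → Dat C} {γ : Ordinal.{0}} {a b : Pt E γ} :
    a ≤ b ↔ Relation.ReflTransGen (fun x y : Pt E γ => L E γ x.raw y.raw) a b := Iff.rfl

/-- The algebra. -/
abbrev Bt (E : Ordinal.{0} → Dat C) (γ : Ordinal.{0}) : Type := WkD.ROP (Pt E γ)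

open Classical in
/-- The canonical map. -/
noncomputable def emt (E : Ordinal.{0} → Dat C) (γ : Ordinal.{0}) (p : Raw C) : Bt E γ :=
  if h : p ∈ V E γ then WkD.em (Pt.mk p h) else ⊥

theorem emt_eq {E : Ordinal.{0} → Dat C} {γ : Ordinal.{0}} {p : Raw C} (h : p ∈ V E γ) :
    emt E γ p = WkD.em (Pt.mk p h) := dif_pos h

theorem emt_ne {E : Ordinal.{0} → Dat C} {γ : Ordinal.{0}} {p : Raw C} (h : p ∈ V E γ) :
    emt E γ p ≠ ⊥ := by
  rw [emt_eq h]
  exact WkD.em_ne_bot _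

theorem emt_mono {E : Ordinal.{0} → Dat C} {γ : Ordinal.{0}} {p q : Raw C} (hp : p ∈ V E γ)
    (hq : q ∈ V E γ) (h : L E γ q p) : emt E γ q ≤ emt E γ p := by
  rw [emt_eq hp, emt_eq hq]
  apply WkD.em_mono
  rw [Pt.le_def]
  apply Relation.ReflTransGen.single
  rw [Pt.raw_mk, Pt.raw_mk]
  exact h

theorem emt_dense {E : Ordinal.{0} → Dat C} {γ : Ordinal.{0}} {b : Bt E γ} (hb : b ≠ ⊥) :
    ∃ p ∈ V E γ, emt E γ p ≤ b := by
  obtain ⟨a, ha⟩ := WkD.exists_em hb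
  refine ⟨a.raw, a.raw_mem, ?_⟩
  rw [emt_eq a.raw_mem, Pt.mk_raw]
  exact ha

theorem raw_of_le {E : Ordinal.{0} → Dat C} {γ : Ordinal.{0}}
    (hr : ∀ p ∈ V E γ, L E γ p p)
    (ht : ∀ p ∈ V E γ, ∀ q ∈ V E γ, ∀ r ∈ V E γ, L E γ r q → L E γ q p → L E γ r p)
    {a b : Pt E γ} (h : a ≤ b) : L E γ a.raw b.raw := by
  rw [Pt.le_def] at h
  induction h with
  | refl => exact hr _ a.raw_mem
  | @tail x y _ h2 ih => exact ht _ y.raw_mem _ x.raw_mem _ a.raw_mem ih h2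

theorem emt_compat {E : Ordinal.{0} → Dat C} {γ : Ordinal.{0}}
    (hr : ∀ p ∈ V E γ, L E γ p p)
    (ht : ∀ p ∈ V E γ, ∀ q ∈ V E γ, ∀ r ∈ V E γ, L E γ r q → L E γ q p → L E γ r p)
    {p q : Raw C} (hp : p ∈ V E γ) (hq : q ∈ V E γ) (h : emt E γ p ⊓ emt E γ q ≠ ⊥) :
    ∃ r ∈ V E γ, L E γ r p ∧ L E γ r q := by
  rw [emt_eq hp, emt_eq hq] at h
  obtain ⟨a, h1, h2⟩ := WkD.compat_of h
  refine ⟨a.raw, a.raw_mem, ?_, ?_⟩
  · have h3 := raw_of_le hr ht h1
    rwa [Pt.raw_mk] at h3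
  · have h3 := raw_of_le hr ht h2
    rwa [Pt.raw_mk] at h3

/-- Codes for the elements of a type. -/
theorem exists_codes (O : Type) (one : O) : ∃ (ζ : Ordinal.{0}) (e : Ordinal.{0} → O),
    0 < ζ ∧ e 0 = one ∧ ∀ z, ∃ ξ, ξ < ζ ∧ e ξ = z := by
  classical
  obtain ⟨f, hf⟩ : ∃ f : O → Ordinal.{0}, Function.Injective f := by
    refine ⟨fun x => Ordinal.typein (WellOrderingRel (α := O)) x, ?_⟩
    exact Ordinal.typein_injective _
  let ζ : Ordinal.{0} := Order.succ (⨆ x, Order.succ (f x))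
  let e : Ordinal.{0} → O := fun ξ => if h : ∃ x, ξ = Order.succ (f x) then h.choose else one
  refine ⟨ζ, e, ?_, ?_, ?_⟩
  · exact lt_of_le_of_lt bot_le (Order.lt_succ (⨆ x, Order.succ (f x)))
  · apply dif_neg
    rintro ⟨x, hx⟩
    exact absurd (Order.lt_succ (f x)) (hx ▸ not_lt_bot)
  · intro z
    refine ⟨Order.succ (f z), Order.lt_succ_of_le (Ordinal.le_iSup (fun x => Order.succ (f x)) z), ?_⟩
    have h : ∃ x, Order.succ (f z) = Order.succ (f x) := ⟨z, rfl⟩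
    have h1 : e (Order.succ (f z)) = h.choose := dif_pos h
    rw [h1]
    exact (hf (Order.succ_injective h.choose_spec)).symm

variable (Rel : ∀ (B : Type) [CompleteBooleanAlgebra B], RelF B)

/-- The bound for the codes. -/
noncomputable def zc (E : Ordinal.{0} → Dat C) (γ : Ordinal.{0}) : Ordinal.{0} :=
  (exists_codes (Rel (Bt E γ)).Obj (Rel (Bt E γ)).one).choose

/-- The objects coded by the ordinals. -/
noncomputable def ec (E : Ordinal.{0} → Dat C) (γ : Ordinal.{0}) : Ordinal.{0} → (Rel (Bt E γ)).Obj :=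
  (exists_codes (Rel (Bt E γ)).Obj (Rel (Bt E γ)).one).choose_spec.choose

theorem codes_spec (E : Ordinal.{0} → Dat C) (γ : Ordinal.{0}) :
    0 < zc Rel E γ ∧ ec Rel E γ 0 = (Rel (Bt E γ)).one ∧ ∀ z, ∃ ξ, ξ < zc Rel E γ ∧ ec Rel E γ ξ = z :=
  (exists_codes (Rel (Bt E γ)).Obj (Rel (Bt E γ)).one).choose_spec.choose_spec

/-- One step. -/
noncomputable def step (E : Ordinal.{0} → Dat C) (γ : Ordinal.{0}) : Dat C where
  ζ := zc Rel E γ
  ok p ξ := (Rel (Bt E γ)).Ok (emt E γ (p.rs γ)) (ec Rel E γ ξ)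
  le q ξ' ξ := (Rel (Bt E γ)).Le (emt E γ (q.rs γ)) (ec Rel E γ ξ') (ec Rel E γ ξ)

open Classical in
/-- A function cut off at `γ`. -/
noncomputable def cut (γ : Ordinal.{0}) (h : ∀ β, β < γ → Dat C) : Ordinal.{0} → Dat C :=
  fun β => if hβ : β < γ then h β hβ else ⟨0, fun _ _ => True, fun _ _ _ => True⟩

/-- The recursion. -/
noncomputable def D : Ordinal.{0} → Dat C :=
  WellFounded.fix (C := fun _ => Dat C) Ordinal.lt_wf (fun γ h => step Rel (cut γ h) γ)

/-- The recursion cut off at `γ`. -/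
noncomputable def E (γ : Ordinal.{0}) : Ordinal.{0} → Dat C := cut γ (fun β _ => D Rel β)

theorem D_eq (γ : Ordinal.{0}) : (D Rel γ : Dat C) = step Rel (E Rel γ) γ :=
  WellFounded.fix_eq _ _ _

theorem E_lt {β γ : Ordinal.{0}} (h : β < γ) : (E Rel γ β : Dat C) = step Rel (E Rel β) β := by
  rw [← D_eq]
  exact dif_pos h

/-- The system. -/
noncomputable def pre (C : Type) [Preorder C] (Rel : ∀ (B : Type) [CompleteBooleanAlgebra B], RelF B) :
    PreIt C Rel where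
  B γ := Bt (E (C := C) Rel γ) γ
  inst _ := inferInstance
  ζ γ := zc Rel (E (C := C) Rel γ) γ
  e γ := ec Rel (E (C := C) Rel γ) γ
  em γ := emt (E (C := C) Rel γ) γ

theorem pre_ok {γ : Ordinal.{0}} {p : Raw C} {ξ : Ordinal.{0}} :
    (pre C Rel).Okc γ ((pre C Rel).em γ (p.rs γ)) ξ ↔ (step Rel (E Rel γ) γ).ok p ξ := Iff.rfl

theorem pre_le {γ : Ordinal.{0}} {q : Raw C} {ξ ξ' : Ordinal.{0}} :
    (pre C Rel).Lec γ ((pre C Rel).em γ (q.rs γ)) ξ' ξ ↔ (step Rel (E Rel γ) γ).le q ξ' ξ := Iff.rfl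

theorem okc_zero (β : Ordinal.{0}) (b : (pre C Rel).B β) : (pre C Rel).Okc β b 0 := by
  unfold PreIt.Okc
  have h : (pre C Rel).e β 0 = (Rel ((pre C Rel).B β)).one := (codes_spec Rel (E Rel β) β).2.1
  rw [h]
  exact (Rel ((pre C Rel).B β)).ok_one b

theorem mem_V {γ : Ordinal.{0}} {p : Raw C} : p ∈ V (E Rel γ) γ ↔ (pre C Rel).In (Iio γ) p := by
  constructor
  · rintro ⟨h1, h2, h3, h4⟩
    refine ⟨h1, h2, fun β => ?_, fun β => ?_⟩
    · rcases lt_or_ge β γ with h | h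
      · have h5 := h3 β h
        rw [E_lt Rel h] at h5
        exact h5
      · rw [f_eq_zero h1 h]
        exact (codes_spec Rel (E Rel β) β).1
    · rcases lt_or_ge β γ with h | h
      · have h5 := h4 β h
        rw [E_lt Rel h] at h5
        exact h5
      · rw [f_eq_zero h1 h]
        exact okc_zero Rel β _
  · rintro ⟨h1, h2, h3, h4⟩
    refine ⟨h1, h2, fun β h => ?_, fun β h => ?_⟩
    · rw [E_lt Rel h]
      exact h3 β
    · rw [E_lt Rel h]
      exact h4 β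

theorem L_iff {γ : Ordinal.{0}} {p q : Raw C} (hp : p.supp ⊆ Iio γ) (hq : q.supp ⊆ Iio γ) :
    L (E Rel γ) γ q p ↔ (pre C Rel).LE q p := by
  constructor
  · rintro ⟨h1, h2⟩
    refine ⟨h1, fun β => ?_⟩
    rcases lt_or_ge β γ with h | h
    · have h5 := h2 β h
      rw [E_lt Rel h] at h5
      exact h5
    · rw [f_eq_zero hp h, f_eq_zero hq h]
      exact (Rel ((pre C Rel).B β)).le_refl (okc_zero Rel β _)
  · rintro ⟨h1, h2⟩
    refine ⟨h1, fun β h => ?_⟩
    rw [E_lt Rel h]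
    exact h2 β

theorem pre_mono {γ : Ordinal.{0}} {p q : Raw C} (hp : (pre C Rel).In (Iio γ) p)
    (hq : (pre C Rel).In (Iio γ) q) (h : (pre C Rel).LE q p) :
    (pre C Rel).em γ q ≤ (pre C Rel).em γ p :=
  emt_mono ((mem_V Rel).2 hp) ((mem_V Rel).2 hq) ((L_iff Rel hp.1 hq.1).2 h)

theorem In_rs {I : Set Ordinal.{0}} {p : Raw C} (h : (pre C Rel).In I p) (γ : Ordinal.{0}) :
    (pre C Rel).In (Iio γ) (p.rs γ) := by
  refine ⟨Raw.supp_rs p γ, h.2.1.mono (Raw.supp_rs_sub p γ), fun β => ?_, fun β => ?_⟩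
  · rcases lt_or_ge β γ with h1 | h1
    · rw [Raw.rs_f_lt _ h1]
      exact h.2.2.1 β
    · rw [Raw.rs_f_ge _ h1]
      exact (codes_spec Rel (E Rel β) β).1
  · rcases lt_or_ge β γ with h1 | h1
    · rw [Raw.rs_f_lt _ h1, Raw.rs_rs _ h1.le]
      exact h.2.2.2 β
    · rw [Raw.rs_f_ge _ h1]
      exact okc_zero Rel β _

theorem LE_rs {p q : Raw C} (h : (pre C Rel).LE q p) (γ : Ordinal.{0}) :
    (pre C Rel).LE (q.rs γ) (p.rs γ) := by
  refine ⟨h.1, fun β => ?_⟩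
  rcases lt_or_ge β γ with h1 | h1
  · rw [Raw.rs_f_lt _ h1, Raw.rs_f_lt _ h1, Raw.rs_rs _ h1.le]
    exact h.2 β
  · rw [Raw.rs_f_ge _ h1, Raw.rs_f_ge _ h1]
    exact (Rel ((pre C Rel).B β)).le_refl (okc_zero Rel β _)

theorem pre_refl {I : Set Ordinal.{0}} {p : Raw C} (h : (pre C Rel).In I p) : (pre C Rel).LE p p :=
  ⟨le_rfl, fun β => (Rel ((pre C Rel).B β)).le_refl (h.2.2.2 β)⟩

theorem pre_trans {I : Set Ordinal.{0}} {p q r : Raw C} (hr : (pre C Rel).In I r)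
    (hq : (pre C Rel).In I q) (hp : (pre C Rel).In I p) (h : (pre C Rel).LE r q)
    (h' : (pre C Rel).LE q p) : (pre C Rel).LE r p := by
  refine ⟨h.1.trans h'.1, fun β => ?_⟩
  have h1 : (pre C Rel).em β (r.rs β) ≤ (pre C Rel).em β (q.rs β) :=
    pre_mono Rel (In_rs Rel hq β) (In_rs Rel hr β) (LE_rs Rel h β)
  have h2 : (pre C Rel).em β (q.rs β) ≤ (pre C Rel).em β (p.rs β) :=
    pre_mono Rel (In_rs Rel hp β) (In_rs Rel hq β) (LE_rs Rel h' β)
  exact (Rel ((pre C Rel).B β)).le_trans (hr.2.2.2 β)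
    ((Rel ((pre C Rel).B β)).ok_mono h1 (hq.2.2.2 β))
    ((Rel ((pre C Rel).B β)).ok_mono (h1.trans h2) (hp.2.2.2 β)) (h.2 β)
    ((Rel ((pre C Rel).B β)).le_mono h1 (h'.2 β))

end ExistAux

open ExistAux in
theorem exists_it (C : Type) [Preorder C] (Rel : ∀ (B : Type) [CompleteBooleanAlgebra B], RelF B) :
    Nonempty (It C Rel) := by
  refine ⟨{ pre C Rel with
    ζ_pos := fun γ => (codes_spec Rel (E Rel γ) γ).1
    e_zero := fun γ => (codes_spec Rel (E Rel γ) γ).2.1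
    e_surj := fun γ => (codes_spec Rel (E Rel γ) γ).2.2
    em_ne := ?_
    em_mono := ?_
    em_dense := ?_
    em_compat := ?_ }⟩
  · intro γ p hp
    exact emt_ne ((mem_V Rel).2 hp)
  · intro γ p q hp hq h
    exact pre_mono Rel hp hq h
  · intro γ b hb
    obtain ⟨p, hp, hpb⟩ := emt_dense hb
    exact ⟨p, (mem_V Rel).1 hp, hpb⟩
  · intro γ p q hp hq h
    obtain ⟨r, hr, h1, h2⟩ := emt_compat (E := E Rel γ) (γ := γ)
      (fun p hp => (L_iff Rel hp.1 hp.1).2 (pre_refl Rel ((mem_V Rel).1 hp)))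
      (fun p hp q hq r hr h1 h2 => (L_iff Rel hp.1 hr.1).2
        (pre_trans Rel ((mem_V Rel).1 hr) ((mem_V Rel).1 hq) ((mem_V Rel).1 hp)
          ((L_iff Rel hq.1 hr.1).1 h1) ((L_iff Rel hp.1 hq.1).1 h2)))
      ((mem_V Rel).2 hp) ((mem_V Rel).2 hq) h
    exact ⟨r, (mem_V Rel).1 hr, (L_iff Rel hp.1 hr.1).1 h1, (L_iff Rel hq.1 hr.1).1 h2⟩

end Pool.Agent.Lib.BSI
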