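import Pool.Agent.Lib.BSI.Fus

/-!
# BSI.WD: weak distributivity

PROOF of `wdist_of`. Given `x : ℕ → ι → B`, `b ≠ ⊥`, `b ≤ ⨆ i, x n i` for all `n`. Choose `p` with `em p ≤ b`. The sets
`D n = {d | em d ⊓ b = ⊥ ∨ ∃ i, em d ≤ x n i}` are open and dense (for `r` with `em r ⊓ b ≠ ⊥` take `r' ≤ r` with `em r' ≤ b`, `exists_le`, then
`exists_em_iSup`). Take `q` and the finite families; `b' = em q`, `F n` = the indices `i` chosen for the `d n k` which satisfy the second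
alternative; `em q ≤ ⨆ k, em (d n k)` (predense: `em_le_of`), and the terms with `em (d n k) ⊓ b = ⊥` do not matter because `em q ≤ b`.
`wdist_all`: strong induction on `γ`, `fus` for `I = Iio γ` and `wdist_of` for `S.den γ` (`P = S.Cnd (Iio γ)`).
`wdist_univ`: the same for `I = univ` and any completion of `S.Cnd univ`.
-/

set_option autoImplicit false

open Set

namespace Pool.Agent.Lib.BSI

universe u v

theorem wdist_of {P : Type v} [Preorder P] {B : Type u} [CompleteBooleanAlgebra B] {em : P → B}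
    (h : Den em)
    (hf : ∀ (p : P) (D : ℕ → Set P), (∀ n, (∀ d ∈ D n, ∀ r ≤ d, r ∈ D n) ∧ ∀ r ≤ p, ∃ d ∈ D n, d ≤ r) →
      ∃ q ≤ p, ∀ n, ∃ (m : ℕ) (d : Fin m → P), (∀ k, d k ∈ D n) ∧ ∀ r ≤ q, ∃ r' ≤ r, ∃ k, r' ≤ d k) :
    WDist B := by
  intro ι x b hb hx
  obtain ⟨p, hp⟩ := h.dense b hb
  obtain ⟨q, hqp, hq⟩ := hf p (fun n => {d | ∃ i, em d ≤ x n i}) (by
    intro n
    constructor
    · rintro d ⟨i, hi⟩ r hr
      exact ⟨i, (h.mono hr).trans hi⟩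
    · intro r hr
      obtain ⟨d, hd, i, hi⟩ := h.exists_em_iSup (((h.mono hr).trans hp).trans (hx n))
      exact ⟨d, ⟨i, hi⟩, hd⟩)
  choose m d hd hpd using hq
  choose i hi using hd
  classical
  refine ⟨em q, (h.mono hqp).trans hp, h.ne q, fun n => Finset.univ.image (i n), fun n => ?_⟩
  apply h.em_le_of
  intro r hr h1
  obtain ⟨r', hr', k, hk⟩ := hpd n r hr
  apply h.ne r'
  rw [← le_bot_iff, ← h1]
  refine le_inf (h.mono hr') ((h.mono hk).trans ((hi n k).trans ?_))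
  exact le_iSup₂_of_le (i n k) (Finset.mem_image_of_mem _ (Finset.mem_univ k)) le_rfl

namespace It

variable {C : Type} [Preorder C] {Rel : ∀ (B : Type) [CompleteBooleanAlgebra B], RelF B}

/-- the fusion property of the conditions with support in `I`, in terms of the preorder `S.Cnd I` -/
theorem fus_cnd (S : It C Rel) (hC : SigmaClosed C) {I : Set Ordinal.{0}} (hI : IsLowerSet I)
    (hW : ∀ β ∈ I, WDist (S.B β)) (p : S.Cnd I) (D : ℕ → Set (S.Cnd I))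
    (hD : ∀ n, (∀ d ∈ D n, ∀ r ≤ d, r ∈ D n) ∧ ∀ r ≤ p, ∃ d ∈ D n, d ≤ r) :
    ∃ q ≤ p, ∀ n, ∃ (m : ℕ) (d : Fin m → S.Cnd I), (∀ k, d k ∈ D n) ∧
      ∀ r ≤ q, ∃ r' ≤ r, ∃ k, r' ≤ d k := by
  obtain ⟨q, hq, hqp, h⟩ := fus hC hI hW p.2 (fun n => Subtype.val '' D n) (by
    intro n
    refine ⟨?_, ?_, ?_⟩
    · rintro _ ⟨d, _, rfl⟩
      exact d.2
    · rintro _ ⟨d, hd, rfl⟩ r hr hrd
      exact ⟨⟨r, hr⟩, (hD n).1 d hd ⟨r, hr⟩ hrd, rfl⟩
    · intro r hr hrp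
      obtain ⟨d, hd, hdr⟩ := (hD n).2 ⟨r, hr⟩ hrp
      exact ⟨d.1, ⟨d, hd, rfl⟩, hdr⟩)
  refine ⟨⟨q, hq⟩, hqp, fun n => ?_⟩
  obtain ⟨m, d, hd, hpd⟩ := h n
  choose d' hd' hdd' using hd
  refine ⟨m, d', hd', ?_⟩
  intro r hr
  obtain ⟨r', hr', hr'r, e, ⟨k, rfl⟩, hk⟩ := hpd r.1 r.2 hr
  refine ⟨⟨r', hr'⟩, hr'r, k, ?_⟩
  show S.LE r' (d' k).1
  rw [hdd' k]
  exact hk

theorem wdist_all (S : It C Rel) (hC : SigmaClosed C) (γ : Ordinal.{0}) : WDist (S.B γ) := by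
  induction γ using WellFoundedLT.induction with
  | ind γ ih =>
    exact wdist_of (S.den γ) fun p D hD =>
      fus_cnd S hC (isLowerSet_Iio γ) (fun β hβ => ih β hβ) p D hD

theorem wdist_univ (S : It C Rel) (hC : SigmaClosed C) {B : Type u} [CompleteBooleanAlgebra B]
    {em : S.Cnd univ → B} (h : Den em) : WDist B :=
  wdist_of h fun p D hD =>
    fus_cnd S hC isLowerSet_univ (fun β _ => wdist_all S hC β) p D hD

end It

end Pool.Agent.Lib.BSI
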