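import Pool.Agent.Lib.BSI.Pull
import Pool.Agent.Lib.BSI.WD
import Pool.Agent.Lib.BSI.Exist
import Pool.Agent.Lib.STD.NiceB
import Pool.Agent.Lib.STD.ModelB
import Pool.Agent.Lib.BVU.RO

/-!
# BSI.Col: the collapse, and the model theorem from the relative theory
-/

set_option autoImplicit false

open Set

namespace Pool.Agent.Lib.BSI

open Pool.Agent.Lib.BSM (V W NOCH NTree)

universe u

/-- Countable partial functions from `W` to the functions `ℕ → ℕ`. -/
structure Col where
  dom : Set W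
  ctbl : dom.Countable
  f : W → ℕ → ℕ

instance : Preorder Col where
  le q p := p.dom ⊆ q.dom ∧ ∀ w ∈ p.dom, q.f w = p.f w
  le_refl p := ⟨Subset.rfl, fun _ _ => rfl⟩
  le_trans r q p h h' := ⟨h'.1.trans h.1, fun w hw => (h.2 w (h'.1 hw)).trans (h'.2 w hw)⟩

instance : Nonempty Col := ⟨⟨∅, countable_empty, fun _ _ => 0⟩⟩

theorem Col.le_iff {p q : Col} : q ≤ p ↔ p.dom ⊆ q.dom ∧ ∀ w ∈ p.dom, q.f w = p.f w := Iff.rfl

theorem sigmaClosed_col : SigmaClosed Col := by
  classical
  intro c hc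
  have hanti : ∀ m n, m ≤ n → c n ≤ c m := by
    intro m n hmn
    induction n, hmn using Nat.le_induction with
    | base => exact le_rfl
    | succ n _ ih => exact (hc n).trans ih
  have hex : ∀ w, w ∈ (⋃ n, (c n).dom) → ∃ n, w ∈ (c n).dom := fun w hw => mem_iUnion.1 hw
  refine ⟨⟨⋃ n, (c n).dom, countable_iUnion fun n => (c n).ctbl,
    fun w => if h : w ∈ ⋃ n, (c n).dom then (c (hex w h).choose).f w else fun _ => 0⟩, fun n => ?_⟩
  rw [Col.le_iff]
  refine ⟨subset_iUnion (fun n => (c n).dom) n, fun w hw => ?_⟩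
  have h : w ∈ ⋃ n, (c n).dom := mem_iUnion.2 ⟨n, hw⟩
  simp only [dif_pos h]
  have h1 := (hex w h).choose_spec
  rcases le_total n (hex w h).choose with h2 | h2
  · exact (hanti _ _ h2).2 w hw
  · exact ((hanti _ _ h2).2 w h1).symm

namespace It

variable {Rel : ∀ (B : Type) [CompleteBooleanAlgebra B], RelF B} {S : It Col Rel}
variable {B : Type u} [CompleteBooleanAlgebra B] {em : S.Cnd univ → B}

/-- the name of the ground function with the index `w` -/
noncomputable def colN (em : S.Cnd univ → B) (w : W) (r : ℕ → ℕ) : B :=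
  ⨆ p : {p : S.Cnd univ // w ∈ p.1.c.dom ∧ p.1.c.f w = r}, em p.1

theorem exists_of_colN (h : Den em) {w : W} {r : ℕ → ℕ} {p : S.Cnd univ}
    (hp : em p ≤ colN em w r) : ∃ q ≤ p, w ∈ q.1.c.dom ∧ q.1.c.f w = r := by
  obtain ⟨q, hq, ⟨x, hx⟩, hqx⟩ := h.exists_em_iSup hp
  obtain ⟨v, hvq, hvx⟩ := h.compat q x (by rw [inf_eq_left.2 hqx]; exact h.ne q)
  have h1 : v.1.c ≤ x.1.c := hvx.1
  exact ⟨v, hvq.trans hq, h1.1 hx.1, (h1.2 w hx.1).trans hx.2⟩

theorem colName (h : Den em) : STD.ColName (colN em) := by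
  constructor
  · intro w r r' hne
    by_contra h0
    obtain ⟨p, hp⟩ := h.dense _ h0
    obtain ⟨q, hq, h1, h2⟩ := exists_of_colN h (hp.trans inf_le_left)
    obtain ⟨q', hq', h3, h4⟩ := exists_of_colN h ((h.mono hq).trans (hp.trans inf_le_right))
    have h5 : q'.1.c ≤ q.1.c := hq'.1
    exact hne (h2.symm.trans ((h5.2 w h1).symm.trans h4))
  · classical
    intro r
    rw [← top_le_iff]
    refine h.le_of fun p _ => h.em_le_of fun q _ h0 => ?_
    obtain ⟨w, hw⟩ := BSM.exists_gt q.1.c.dom q.1.c.ctbl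
    have hw' : w ∉ q.1.c.dom := fun h1 => lt_irrefl _ (hw w h1)
    set c : Col := ⟨insert w q.1.c.dom, q.1.c.ctbl.insert w, Function.update q.1.c.f w r⟩ with hc
    have hle : c ≤ q.1.c := by
      rw [Col.le_iff]
      refine ⟨subset_insert _ _, fun v hv => ?_⟩
      exact Function.update_of_ne (fun h1 => hw' (by rwa [h1] at hv)) _ _
    obtain ⟨h1, h2⟩ := setc_spec q.2 hle
    have h3 : w ∈ (q.1.setc c).c.dom ∧ (q.1.setc c).c.f w = r :=
      ⟨mem_insert _ _, Function.update_self _ _ _⟩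
    apply h.ne ⟨_, h1⟩
    rw [← le_bot_iff, ← h0]
    exact le_inf (h.mono (p := q) (q := ⟨_, h1⟩) h2) (le_iSup_of_le w
      (le_iSup (fun p : {p : S.Cnd univ // w ∈ p.1.c.dom ∧ p.1.c.f w = r} => em p.1) ⟨⟨_, h1⟩, h3⟩))

end It

/-- The model theorem: the relative theory over all complete Boolean algebras gives a model of ZFC in which the dominating
number is smaller than the special tree number. -/
theorem exists_model_of (Rel : ∀ (B : Type) [CompleteBooleanAlgebra B], RelF B)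
    (hRel : ∀ (B : Type) [CompleteBooleanAlgebra B] (N : NTree B), ∃ ν : V → (Rel B).Nd,
      ∀ s t, (Rel B).lt (ν s) (ν t) = N.lt s t) :
    ∃ (M : Type 2) (E : M → M → Prop), BVM.ModelZFC M E ∧ STD.StGtD E := by
  obtain ⟨S⟩ : Nonempty (It Col Rel) := exists_it Col Rel
  have h : Den (BVU.em : S.Cnd univ → BVU.ROP (S.Cnd univ)) :=
    { ne := BVU.em_ne_bot
      mono := fun h => BVU.em_mono h
      dense := fun b hb => BVU.exists_em hb
      compat := fun p q h => BVU.compat_of h }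
  have hW : STD.WDist (BVU.ROP (S.Cnd univ)) := by
    intro ι x p hp hx
    obtain ⟨q, hq, hne, F, hF⟩ := It.wdist_univ S sigmaClosed_col h ι x p hp hx
    exact ⟨q, hq, hne, fun n => ⟨F n, hF n⟩⟩
  have hS : STD.AllSpecial (BVU.ROP (S.Cnd univ)) W := by
    intro R hR hN
    obtain ⟨F, h1, h2, h3⟩ := It.special_nice h hRel (STD.niceTree hW hR hN)
    exact ⟨_, STD.bspec_of_nice hR F h1 h2 h3⟩
  have hne : Nontrivial (BVU.ROP (S.Cnd univ)) := by
    obtain ⟨c₀⟩ : Nonempty Col := inferInstance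
    have h1 : S.In univ (⟨c₀, fun _ => 0⟩ : Raw Col) := by
      refine ⟨subset_univ _, ?_, S.ζ_pos, fun β => It.okc_zero S β _⟩
      have h2 : (⟨c₀, fun _ => 0⟩ : Raw Col).supp = ∅ := by
        ext β
        simp [Raw.supp]
      rw [h2]
      exact countable_empty
    exact ⟨_, _, h.ne ⟨_, h1⟩⟩
  exact STD.exists_model ⟨fun A hA => BSM.exists_gt A hA⟩ hW (It.colName h) hS

end Pool.Agent.Lib.BSI
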