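import Pool.Agent.Lib.BSI.CSDef

/-!
# BSI.Coord: the copy lemma at one coordinate

MODULE TO PROVE. `p` is a condition supported below `β + 1`, `D` is open and dense below `p` (in the conditions supported
below `β + 1`), `r₀` is below `p.rs β`. Then some `r ≤ r₀` satisfies `CS β (p.f β) K ε D r`.

PROOF. Apply `RelF.copy` to `b = em β r₀`, `z = S.e β (p.f β)` (valid over `b`: `okc_mono`, `em_mono`), `K`, `ε` and
`Dh = {(b, z) | ∃ d ∈ D, ∀ t ρ, In (Iio β) t → em β t ≤ b → ρ < ζ β → Okc β (em β t) ρ → Le (em β t) (e β ρ) z →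
   ∃ t', In (Iio (succ β)) t' ∧ LE t' (t.upd β ρ) ∧ LE t' d}`.
Open: `le_trans` and `le_mono`. Dense: given `(b₁, z₁)`, `b₁ ≤ em β r₀`, `b₁ ≠ ⊥`: choose a condition `t₁ ≤ r₀` with `em β t₁ ≤ b₁`
(`exists_le'`) and a code `ξ₁ < ζ β` of `z₁` (`e_surj`); `t₁.upd β ξ₁` is a condition (`upd_In`) below `p` (`p = (p.rs β).upd β (p.f β)` by
`Raw.upd_rs_eq`, `upd_LE`); choose `d ∈ D` below it; `b₂ = em β (d.rs β)`, `z₂ = e β (d.f β)`. The witness for `(b₂, z₂) ∈ Dh` is `d`: for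
`t, ρ` with `em β t ≤ b₂` there is a common extension `s` of `t` and `d.rs β` (`em_compat`), and `s.upd β ρ` is below `t.upd β ρ` and
below `d = (d.rs β).upd β (d.f β)`.
From `copy` we get `b' ≤ em β r₀`, `z'`, `zs i` with `(b', zs i) ∈ Dh`, witnesses `d i`. Choose `r ≤ r₀` with `em β r ≤ b'`. For `t, ρ` as in
`CS` use the last clause of `copy` with `b₁ = em β t`, `w = e β ρ`: `i`, `b₂`, `w'`; choose `t₂ ≤ t` with `em β t₂ ≤ b₂`, a code `ρ'` of `w'`;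
`t₂.upd β ρ' ≤ t.upd β ρ`, and `(b', zs i) ∈ Dh` applied to `t₂, ρ'` gives `t'`.
-/

set_option autoImplicit false

open Set

namespace Pool.Agent.Lib.BSI.It

variable {C : Type} [Preorder C] {Rel : ∀ (B : Type) [CompleteBooleanAlgebra B], RelF B}
variable {S : It C Rel}

theorem coord {β : Ordinal.{0}} (hW : WDist (S.B β)) {p : Raw C} (hp : S.In (Iio (Order.succ β)) p)
    (K : ℕ) {ε : ℝ} (hε : 0 < ε) {D : Set (Raw C)} (hD : S.OD (Iio (Order.succ β)) p D) {r₀ : Raw C}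
    (hr₀ : S.In (Iio β) r₀) (h : S.LE r₀ (p.rs β)) :
    ∃ r, S.In (Iio β) r ∧ S.LE r r₀ ∧ S.CS β (p.f β) K ε D r := by
  have hb0 : S.em β r₀ ≠ ⊥ := S.em_ne β r₀ hr₀
  have hle0 : S.em β r₀ ≤ S.em β (p.rs β) := S.em_mono β (p.rs β) r₀ (hp.rs β) hr₀ h
  have hz : (Rel (S.B β)).Ok (S.em β r₀) (S.e β (p.f β)) := okc_mono hle0 (hp.2.2.2 β)
  let Dh : Set (S.B β × (Rel (S.B β)).Obj) := {x | ∃ d ∈ D, ∀ (t : Raw C) (ρ : Ordinal.{0}),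
    S.In (Iio β) t → S.em β t ≤ x.1 → ρ < S.ζ β → S.Okc β (S.em β t) ρ →
    (Rel (S.B β)).Le (S.em β t) (S.e β ρ) x.2 →
    ∃ t', S.In (Iio (Order.succ β)) t' ∧ S.LE t' (t.upd β ρ) ∧ S.LE t' d}
  have hopen : ∀ (b₁ : S.B β) (z₁ : (Rel (S.B β)).Obj) (b₂ : S.B β) (z₂ : (Rel (S.B β)).Obj),
      (b₁, z₁) ∈ Dh → (Rel (S.B β)).Ok b₁ z₁ → b₂ ≤ b₁ → b₂ ≠ ⊥ → (Rel (S.B β)).Ok b₂ z₂ →
      (Rel (S.B β)).Le b₂ z₂ z₁ → (b₂, z₂) ∈ Dh := by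
    intro b₁ z₁ b₂ z₂ hm hok1 hb21 _ hok2 hle2
    obtain ⟨d, hd, hall⟩ := hm
    refine ⟨d, hd, fun t ρ ht htb hρ hok hle => ?_⟩
    have htb' : S.em β t ≤ b₂ := htb
    have hle' : (Rel (S.B β)).Le (S.em β t) (S.e β ρ) z₂ := hle
    exact hall t ρ ht (htb'.trans hb21) hρ hok
      ((Rel (S.B β)).le_trans hok ((Rel (S.B β)).ok_mono htb' hok2)
        ((Rel (S.B β)).ok_mono (htb'.trans hb21) hok1) hle' ((Rel (S.B β)).le_mono htb' hle2))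
  have hdense : ∀ (b₁ : S.B β) (z₁ : (Rel (S.B β)).Obj), b₁ ≤ S.em β r₀ → b₁ ≠ ⊥ →
      (Rel (S.B β)).Ok b₁ z₁ → (Rel (S.B β)).Le b₁ z₁ (S.e β (p.f β)) →
      ∃ b₂ ≤ b₁, b₂ ≠ ⊥ ∧ ∃ z₂, (Rel (S.B β)).Ok b₂ z₂ ∧ (Rel (S.B β)).Le b₂ z₂ z₁ ∧
        (b₂, z₂) ∈ Dh := by
    intro b₁ z₁ hb1 hne hok hle
    obtain ⟨t₁, ht₁, ht₁r, ht₁b⟩ := exists_le' hr₀ hne hb1
    obtain ⟨ξ₁, hξ₁, hξe⟩ := S.e_surj β z₁
    subst hξe
    have hu : S.In (Iio (Order.succ β)) (t₁.upd β ξ₁) :=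
      upd_In ht₁ hξ₁ ((Rel (S.B β)).ok_mono ht₁b hok)
    have hup : S.LE (t₁.upd β ξ₁) p := by
      have h1 := upd_LE (ξ := ξ₁) (ξ' := p.f β) ht₁ (hp.rs β) (letrans ht₁ hr₀ (hp.rs β) ht₁r h)
        ((Rel (S.B β)).le_mono ht₁b hle)
      rwa [Raw.upd_rs_eq hp.1] at h1
    obtain ⟨d, hd, hdu⟩ := hD.2.2 _ hu hup
    have hdI := hD.1 d hd
    have hb21 : S.em β (d.rs β) ≤ b₁ := by
      have h1 := em_rs_mono hdI hu hdu β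
      rw [Raw.upd_rs_self _ ht₁.1] at h1
      exact h1.trans ht₁b
    refine ⟨S.em β (d.rs β), hb21, S.em_ne β _ (hdI.rs β), S.e β (d.f β), hdI.2.2.2 β, ?_, d, hd, ?_⟩
    · have h1 := hdu.2 β
      rw [Raw.upd_f_self] at h1
      exact h1
    · intro t ρ ht htb hρ hokρ hleρ
      have htb' : S.em β t ≤ S.em β (d.rs β) := htb
      have hne2 : S.em β t ⊓ S.em β (d.rs β) ≠ ⊥ := by
        rw [inf_eq_left.2 htb']
        exact S.em_ne β t ht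
      obtain ⟨s, hs, hst, hsd⟩ := S.em_compat β t (d.rs β) ht (hdI.rs β) hne2
      have hse : S.em β s ≤ S.em β t := S.em_mono β _ _ ht hs hst
      have hoks : S.Okc β (S.em β s) ρ := okc_mono hse hokρ
      refine ⟨s.upd β ρ, upd_In hs hρ hoks, upd_LE hs ht hst (lec_refl hoks), ?_⟩
      have h1 := upd_LE (ξ := ρ) (ξ' := d.f β) hs (hdI.rs β) hsd
        ((Rel (S.B β)).le_mono hse hleρ)
      rwa [Raw.upd_rs_eq hdI.1] at h1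
  obtain ⟨b', hb'le, hb'ne, z', n, zs, hok', hctl, hzs, hlast⟩ :=
    (Rel (S.B β)).copy hW (S.em β r₀) (S.e β (p.f β)) K ε Dh hb0 hz hε hopen hdense
  obtain ⟨r, hr, hrr₀, hrb⟩ := exists_le' hr₀ hb'ne hb'le
  choose d hd hall using fun i => (hzs i).2.2
  refine ⟨r, hr, hrr₀, z', n, d, (Rel (S.B β)).ok_mono hrb hok', (Rel (S.B β)).ctl_mono hrb hctl, hd, ?_⟩
  intro t ρ ht htr hρ hokρ hleρ
  obtain ⟨i, b₂, w', hb₂, hb₂ne, hokw, hlew, hlez⟩ :=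
    hlast (S.em β t) (S.e β ρ) (htr.trans hrb) (S.em_ne β t ht) hokρ hleρ
  obtain ⟨t₂, ht₂, ht₂t, ht₂b⟩ := exists_le' ht hb₂ne hb₂
  obtain ⟨ρ', hρ', hρe⟩ := S.e_surj β w'
  subst hρe
  have hok2 : S.Okc β (S.em β t₂) ρ' := (Rel (S.B β)).ok_mono ht₂b hokw
  obtain ⟨t', ht', ht'1, ht'2⟩ := hall i t₂ ρ' ht₂
    (S.em_mono β _ _ ht ht₂ ht₂t |>.trans (htr.trans hrb)) hρ' hok2
    ((Rel (S.B β)).le_mono ht₂b hlez)
  refine ⟨i, t', ht', ?_, ht'2⟩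
  have h1 : S.LE (t₂.upd β ρ') (t.upd β ρ) :=
    upd_LE ht₂ ht ht₂t ((Rel (S.B β)).le_mono ht₂b hlew)
  exact letrans ht' (upd_In ht₂ hρ' hok2) (upd_In ht hρ hokρ) ht'1 h1

end Pool.Agent.Lib.BSI.It
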