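import Pool.Agent.Lib.BSI.Mix
import Pool.Agent.Lib.BSI.Coord

/-!
# BSI.CtlExt: controlled extensions at finitely many coordinates

`p` is a condition with support in the initial segment `I`, `F` a finite set of coordinates in `I`, `D` open and
dense below `p`. There are `p' ≤ p` and finitely many elements of `D` which are predense below `p'` such that `p'` is a
controlled extension of `p` at all coordinates of `F`.

PROOF by induction on the number of elements of `F` (`I`, `p`, `D` arbitrary). `F = ∅`: take `d ∈ D` below `p`, `p' = d`.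
Otherwise let `β = max F`, `D' = {s | In (Iio (succ β)) s ∧ ∃ d ∈ D, LE d p ∧ LE s (d.rs (succ β))}`: it is open and dense below
`p.rs (succ β)` (for `s ≤ p.rs (succ β)` take `d ∈ D` below `s.am p (succ β)`, `am_In`, `am_le`, `am_rs_self`).
`E = {r | In (Iio β) r ∧ LE r (p.rs β) ∧ CS β (p.f β) K (ε/2) D' r}` is open and dense below `p.rs β` (`CS.mono`, `coord` for
`p.rs (succ β)`). Induction hypothesis for `F.erase β`, `Iio β`, `p.rs β`, `E`: a condition `p₁ ≤ p.rs β` and `r k ∈ E` (`k < n`), predense below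
`p₁`, controlled at `F.erase β`. Let `z k`, `d k i ∈ D'` be the data of `CS` for `r k`, with `dd k i ∈ D`, `LE (dd k i) p`,
`LE (d k i) ((dd k i).rs (succ β))`. `e = disjointed (fun k => em β p₁ ⊓ em β (r k))`, `⨆ e = em β p₁` (`em_le_iSup_of_pd`).
`RelF.glueC n e z (S.e β (p.f β)) K ε` gives `z''`, code `ξ < ζ β` (`e_surj`), `c = p₁.upd β ξ` (`upd_In`), `c ≤ p.rs (succ β)` (`upd_LE`, `ctl_le`).
CLAIM: the `(dd k i).rs (succ β)` are predense below `c`: for `r ≤ c` we have `em β (r.rs β) ≤ em β p₁ = ⨆ e`, choose `k` and a condition `t`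
below `r.rs β` with `em β t ≤ e k`; `t.upd β (r.f β) ≤ r`, and `Le (em β t) (e β (r.f β)) (z k)` by transitivity (over `e k`:
`z'' ≤ z k`); now use `CS` for `r k` (`em β t ≤ e k ≤ em β (r k)`).
Finally `mix` with `γ = succ β`, `c` and the finite family `dd` (indexed by `Σ k, Fin (n k)`, transport to `Fin N`) gives `p'`.
Control at `β`: `p'.rs β = c.rs β = p₁`, `p'.f β = ξ`; at `η ∈ F.erase β` (`η < β`): `p'.rs η = p₁.rs η`, `p'.f η = p₁.f η`, `(p.rs β).f η = p.f η`.
-/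

set_option autoImplicit false

open Set

namespace Pool.Agent.Lib.BSI.It

variable {C : Type} [Preorder C] {Rel : ∀ (B : Type) [CompleteBooleanAlgebra B], RelF B}
variable {S : It C Rel}

namespace CtlExtAux

/-- a finite pairwise disjoint refinement with the same supremum -/
theorem disj {B : Type} [CompleteBooleanAlgebra B] {n : ℕ} (f : Fin n → B) :
    ∃ e : Fin n → B, (∀ k, e k ≤ f k) ∧ Pairwise (fun i j => Disjoint (e i) (e j)) ∧
      ⨆ k, e k = ⨆ k, f k := by
  obtain ⟨g, h1, h2, h3⟩ := Fintype.exists_disjointed_le f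
  refine ⟨g, fun k => h1 k, h3, ?_⟩
  rw [← Finset.sup_univ_eq_iSup, ← Finset.sup_univ_eq_iSup]
  exact h2

/-- the reflected dense set below `γ` -/
theorem od_restrict {I : Set Ordinal.{0}} {γ : Ordinal.{0}} (hγ : Iio γ ⊆ I) {p : Raw C}
    (hp : S.In I p) {D : Set (Raw C)} (hD : S.OD I p D) :
    S.OD (Iio γ) (p.rs γ) {s | S.In (Iio γ) s ∧ ∃ d ∈ D, S.LE d p ∧ S.LE s (d.rs γ)} := by
  refine ⟨fun s hs => hs.1, ?_, ?_⟩
  · rintro s ⟨hs, d, hd, hdp, hsd⟩ r hr hrs
    exact ⟨hr, d, hd, hdp, letrans hr hs ((hD.1 d hd).rs γ) hrs hsd⟩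
  · intro s hs hsp
    have hq : S.In I (s.am p γ) := am_In hp hs (hs.1.trans hγ) hsp
    have hqp : S.LE (s.am p γ) p := am_le hp hs hsp
    obtain ⟨d, hd, hdq⟩ := hD.2.2 _ hq hqp
    have hdI := hD.1 d hd
    refine ⟨d.rs γ, ⟨hdI.rs γ, d, hd, letrans hdI hq hp hdq hqp, lerefl (hdI.rs γ)⟩, ?_⟩
    have h1 := lers hdq γ
    rwa [Raw.am_rs_self p hs.1] at h1

end CtlExtAux

open CtlExtAux

theorem ctlExt (F : Finset Ordinal.{0}) {I : Set Ordinal.{0}} (hI : IsLowerSet I) (hF : ∀ β ∈ F, β ∈ I)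
    (hW : ∀ β ∈ F, WDist (S.B β)) {p : Raw C} (hp : S.In I p) (K : ℕ) {ε : ℝ} (hε : 0 < ε)
    {D : Set (Raw C)} (hD : S.OD I p D) :
    ∃ (p' : Raw C) (n : ℕ) (d : Fin n → Raw C), S.In I p' ∧ S.LE p' p ∧ (∀ k, d k ∈ D) ∧
      S.Pd I p' (range d) ∧
      ∀ β ∈ F, (Rel (S.B β)).Ctl K ε (S.em β (p'.rs β)) (S.e β (p'.f β)) (S.e β (p.f β)) := by
  classical
  induction F using Finset.induction_on_max generalizing I p D with
  | empty =>
    obtain ⟨d, hd, hdp⟩ := hD.2.2 p hp (lerefl hp)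
    have hdI := hD.1 d hd
    refine ⟨d, 1, fun _ => d, hdI, hdp, fun _ => hd, ?_, fun β hβ => absurd hβ (Finset.notMem_empty β)⟩
    intro r hr hrd
    exact ⟨r, hr, lerefl hr, d, ⟨0, rfl⟩, hrd⟩
  | insert β F' hmax ih =>
    have hβI : β ∈ I := hF β (Finset.mem_insert_self β F')
    have hγI : Iio (Order.succ β) ⊆ I := fun x hx => hI (Order.lt_succ_iff.1 hx) hβI
    have hββ : β < Order.succ β := Order.lt_succ β
    -- the reflected dense set
    set D' : Set (Raw C) := {s | S.In (Iio (Order.succ β)) s ∧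
      ∃ d ∈ D, S.LE d p ∧ S.LE s (d.rs (Order.succ β))} with hD'def
    have hD' : S.OD (Iio (Order.succ β)) (p.rs (Order.succ β)) D' := od_restrict hγI hp hD
    have hpβ : S.In (Iio β) (p.rs β) := hp.rs β
    set E : Set (Raw C) := {r | S.In (Iio β) r ∧ S.LE r (p.rs β) ∧ S.CS β (p.f β) K (ε / 2) D' r}
      with hEdef
    have hE : S.OD (Iio β) (p.rs β) E := by
      refine ⟨fun s hs => hs.1, ?_, ?_⟩
      · rintro s ⟨hs, hsp, hcs⟩ r hr hrs
        exact ⟨hr, letrans hr hs hpβ hrs hsp, hcs.mono (S.em_mono β _ _ hs hr hrs)⟩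
      · intro s hs hsp
        have h1 : S.LE s ((p.rs (Order.succ β)).rs β) := by
          rw [Raw.rs_rs _ hββ.le]
          exact hsp
        obtain ⟨r, hr, hrs, hcs⟩ := coord (hW β (Finset.mem_insert_self β F'))
          (hp.rs (Order.succ β)) K (half_pos hε) hD' hs h1
        rw [Raw.rs_f_lt _ hββ] at hcs
        exact ⟨r, ⟨hr, letrans hr hs hpβ hrs hsp, hcs⟩, hrs⟩
    obtain ⟨p₁, n, r, hp₁, hp₁p, hrE, hpd₁, hctl₁⟩ := ih (isLowerSet_Iio β)
      (fun x hx => hmax x hx) (fun x hx => hW x (Finset.mem_insert_of_mem hx)) hpβ hE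
    -- the data over the conditions `r k`
    have hcs : ∀ k, S.CS β (p.f β) K (ε / 2) D' (r k) := fun k => (hrE k).2.2
    choose z m dk hok hctl hdD hpre using hcs
    have hsup : ⨆ k, (S.em β p₁ ⊓ S.em β (r k)) = S.em β p₁ := by
      rw [← inf_iSup_eq, inf_eq_left]
      have h1 := em_le_iSup_of_pd hp₁ (by
        rintro d ⟨k, rfl⟩
        exact (hrE k).1) hpd₁
      rwa [iSup_range] at h1
    obtain ⟨e, hef, hdisj, hesup⟩ := disj (fun k => S.em β p₁ ⊓ S.em β (r k))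
    rw [hsup] at hesup
    have her : ∀ k, e k ≤ S.em β (r k) := fun k => (hef k).trans inf_le_right
    have hp₁em : S.em β p₁ ≤ S.em β (p.rs β) := S.em_mono β _ _ hpβ hp₁ hp₁p
    obtain ⟨z'', hz1, hz2, hz3⟩ := (Rel (S.B β)).glueC n e z (S.e β (p.f β)) K ε hε hdisj
      (fun k => (Rel (S.B β)).ok_mono (her k) (hok k))
      (by
        rw [hesup]
        exact okc_mono hp₁em (hp.2.2.2 β))
      (fun k => (Rel (S.B β)).ctl_mono (her k) (hctl k))
    rw [hesup] at hz1 hz2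
    obtain ⟨ξ, hξ, hξz⟩ := S.e_surj β z''
    subst hξz
    have hc : S.In (Iio (Order.succ β)) (p₁.upd β ξ) := upd_In hp₁ hξ hz1
    have hcp : S.LE (p₁.upd β ξ) (p.rs (Order.succ β)) := by
      have h1 : ((p.rs (Order.succ β)).rs β).upd β ((p.rs (Order.succ β)).f β) =
          p.rs (Order.succ β) := Raw.upd_rs_eq (hp.rs (Order.succ β)).1
      rw [Raw.rs_rs _ hββ.le, Raw.rs_f_lt _ hββ] at h1
      rw [← h1]
      exact upd_LE hp₁ hpβ hp₁p
        ((Rel (S.B β)).ctl_le hz1 (okc_mono hp₁em (hp.2.2.2 β)) hz2)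
    -- the elements of `D`
    have hdD2 : ∀ k i, ∃ d ∈ D, S.LE d p ∧ S.LE (dk k i) (d.rs (Order.succ β)) :=
      fun k i => (hdD k i).2
    choose dd hdd1 hdd2 hdd3 using hdD2
    let eq := Fintype.equivFin (Σ k : Fin n, Fin (m k))
    have hpd : S.Pd (Iio (Order.succ β)) (p₁.upd β ξ)
        (range fun j : Fin (Fintype.card (Σ k : Fin n, Fin (m k))) =>
          (dd (eq.symm j).1 (eq.symm j).2).rs (Order.succ β)) := by
      intro s hs hsc
      have hsβ : S.In (Iio β) (s.rs β) := hs.rs β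
      have h1 : S.em β (s.rs β) ≤ ⨆ k, e k := by
        rw [hesup]
        have h2 := em_rs_mono hs hc hsc β
        rwa [Raw.upd_rs_self ξ hp₁.1] at h2
      obtain ⟨⟨t, ht⟩, hts, k, htk⟩ := (S.den β).exists_em_iSup (p := ⟨s.rs β, hsβ⟩) h1
      replace hts : S.LE t (s.rs β) := hts
      replace htk : S.em β t ≤ e k := htk
      have htem : S.em β t ≤ S.em β (s.rs β) := S.em_mono β _ _ hsβ ht hts
      have htok : S.Okc β (S.em β t) (s.f β) := okc_mono htem (hs.2.2.2 β)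
      have hsc' := hsc.2 β
      rw [Raw.upd_f_self] at hsc'
      have htp₁ : S.em β t ≤ S.em β p₁ := by
        rw [← hesup]
        exact htk.trans (le_iSup e k)
      have hle : (Rel (S.B β)).Le (S.em β t) (S.e β (s.f β)) (z k) :=
        (Rel (S.B β)).le_trans htok (okc_mono htp₁ hz1)
          ((Rel (S.B β)).ok_mono (htk.trans (her k)) (hok k))
          (lec_mono htem hsc') ((Rel (S.B β)).le_mono htk (hz3 k))
      obtain ⟨i, t', ht', htt, htd⟩ := hpre k t (s.f β) ht (htk.trans (her k)) (hs.2.2.1 β) htok hle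
      have hupd : S.In (Iio (Order.succ β)) (t.upd β (s.f β)) := upd_In ht (hs.2.2.1 β) htok
      have hts' : S.LE (t.upd β (s.f β)) s := by
        have h3 := upd_LE ht hsβ hts (lec_refl htok)
        rwa [Raw.upd_rs_eq hs.1] at h3
      refine ⟨t', ht', letrans ht' hupd hs htt hts', _, ⟨eq ⟨k, i⟩, rfl⟩, ?_⟩
      have hdk : S.In (Iio (Order.succ β)) (dk k i) := (hdD k i).1
      have h5 : eq.symm (eq ⟨k, i⟩) = ⟨k, i⟩ := eq.symm_apply_apply _
      change S.LE t' ((dd (eq.symm (eq ⟨k, i⟩)).1 (eq.symm (eq ⟨k, i⟩)).2).rs (Order.succ β))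
      rw [h5]
      exact letrans ht' hdk ((hD.1 _ (hdd1 k i)).rs _) htd (hdd3 k i)
    obtain ⟨q, hq, hqc, hqp, hqpd⟩ := mix hI hγI hp hc hcp
      (fun j : Fin (Fintype.card (Σ k : Fin n, Fin (m k))) => dd (eq.symm j).1 (eq.symm j).2)
      (fun j => hD.1 _ (hdd1 _ _)) (fun j => hdd2 _ _) hpd
    refine ⟨q, _, _, hq, hqp, fun j => hdd1 _ _, hqpd, ?_⟩
    intro η hη
    have hqrs : ∀ δ, δ ≤ β → q.rs δ = p₁.rs δ := by
      intro δ hδ
      have h1 : (q.rs (Order.succ β)).rs δ = q.rs δ := Raw.rs_rs _ (hδ.trans hββ.le)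
      rw [← h1, hqc, Raw.upd_rs _ _ hδ]
    have hqf : ∀ δ, δ ≤ β → q.f δ = (p₁.upd β ξ).f δ := by
      intro δ hδ
      rw [← hqc, Raw.rs_f_lt _ (hδ.trans_lt hββ)]
    rcases Finset.mem_insert.1 hη with h1 | h1
    · subst h1
      rw [hqrs η le_rfl, hqf η le_rfl, Raw.upd_f_self, Raw.rs_eq_self hp₁.1]
      exact hz2
    · have h2 : η < β := hmax η h1
      rw [hqrs η h2.le, hqf η h2.le, Raw.upd_f_ne _ _ h2.ne]
      have h3 := hctl₁ η h1
      rwa [Raw.rs_f_lt _ h2] at h3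

end Pool.Agent.Lib.BSI.It
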