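import Pool.Agent.Lib.BSI.Rel

/-!
# BSI.Defs: raw conditions and iteration systems

`Raw C`: an element of the base order `C` and a code `f β` (an ordinal) for every coordinate `β`.
An iteration system `S : It C Rel` consists of complete Boolean algebras `S.B γ` (the regular open algebra of the
conditions supported below `γ`), codes `S.e γ : Ordinal → objects over S.B γ`, and the canonical maps `S.em γ`.
-/

set_option autoImplicit false

open Set

namespace Pool.Agent.Lib.BSI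

/-- A raw condition. -/
@[ext] structure Raw (C : Type) where
  c : C
  f : Ordinal.{0} → Ordinal.{0}

namespace Raw

variable {C : Type}

/-- the support -/
def supp (p : Raw C) : Set Ordinal.{0} := {β | p.f β ≠ 0}

open Classical in
/-- the restriction to the coordinates below `γ` -/
noncomputable def rs (p : Raw C) (γ : Ordinal.{0}) : Raw C := ⟨p.c, fun β => if β < γ then p.f β else 0⟩

open Classical in
/-- `r` below `γ`, `p` from `γ` on -/
noncomputable def am (r p : Raw C) (γ : Ordinal.{0}) : Raw C :=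
  ⟨r.c, fun β => if β < γ then r.f β else p.f β⟩

open Classical in
/-- `r` with the code `ξ` at the coordinate `β` -/
noncomputable def upd (r : Raw C) (β ξ : Ordinal.{0}) : Raw C := ⟨r.c, Function.update r.f β ξ⟩

end Raw

/-- The data of an iteration system. -/
structure PreIt (C : Type) (Rel : ∀ (B : Type) [CompleteBooleanAlgebra B], RelF B) where
  B : Ordinal.{0} → Type
  inst : ∀ γ, CompleteBooleanAlgebra (B γ)
  /-- the codes at `γ` are the ordinals below `ζ γ` -/
  ζ : Ordinal.{0} → Ordinal.{0}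
  e : ∀ γ, Ordinal.{0} → (@Rel (B γ) (inst γ)).Obj
  em : ∀ γ, Raw C → B γ

attribute [instance] PreIt.inst

namespace PreIt

variable {C : Type} [Preorder C] {Rel : ∀ (B : Type) [CompleteBooleanAlgebra B], RelF B}

/-- The code `ξ` is valid over `b`. -/
def Okc (S : PreIt C Rel) (β : Ordinal.{0}) (b : S.B β) (ξ : Ordinal.{0}) : Prop :=
  (Rel (S.B β)).Ok b (S.e β ξ)

/-- The order of the codes over `b`. -/
def Lec (S : PreIt C Rel) (β : Ordinal.{0}) (b : S.B β) (ξ' ξ : Ordinal.{0}) : Prop :=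
  (Rel (S.B β)).Le b (S.e β ξ') (S.e β ξ)

/-- `p` is a condition with support in `I`. -/
def In (S : PreIt C Rel) (I : Set Ordinal.{0}) (p : Raw C) : Prop :=
  p.supp ⊆ I ∧ p.supp.Countable ∧ (∀ β, p.f β < S.ζ β) ∧ ∀ β, S.Okc β (S.em β (p.rs β)) (p.f β)

/-- The order. -/
def LE (S : PreIt C Rel) (q p : Raw C) : Prop :=
  q.c ≤ p.c ∧ ∀ β, S.Lec β (S.em β (q.rs β)) (q.f β) (p.f β)

/-- The set `Q` is predense below `q` in the conditions with support in `I`. -/
def Pd (S : PreIt C Rel) (I : Set Ordinal.{0}) (q : Raw C) (Q : Set (Raw C)) : Prop :=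
  ∀ r, S.In I r → S.LE r q → ∃ r', S.In I r' ∧ S.LE r' r ∧ ∃ d ∈ Q, S.LE r' d

/-- `D` is an open set of conditions with support in `I` which is dense below `p`. -/
def OD (S : PreIt C Rel) (I : Set Ordinal.{0}) (p : Raw C) (D : Set (Raw C)) : Prop :=
  (∀ d ∈ D, S.In I d) ∧ (∀ d ∈ D, ∀ r, S.In I r → S.LE r d → r ∈ D) ∧
    ∀ r, S.In I r → S.LE r p → ∃ d ∈ D, S.LE d r

end PreIt

/-- Iteration systems. -/
structure It (C : Type) [Preorder C] (Rel : ∀ (B : Type) [CompleteBooleanAlgebra B], RelF B)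
    extends PreIt C Rel where
  ζ_pos : ∀ γ, 0 < ζ γ
  e_zero : ∀ γ, e γ 0 = (@Rel (B γ) (inst γ)).one
  e_surj : ∀ γ (z : (@Rel (B γ) (inst γ)).Obj), ∃ ξ < ζ γ, e γ ξ = z
  em_ne : ∀ γ p, toPreIt.In (Iio γ) p → em γ p ≠ ⊥
  em_mono : ∀ γ p q, toPreIt.In (Iio γ) p → toPreIt.In (Iio γ) q → toPreIt.LE q p → em γ q ≤ em γ p
  em_dense : ∀ γ (b : B γ), b ≠ ⊥ → ∃ p, toPreIt.In (Iio γ) p ∧ em γ p ≤ b
  em_compat : ∀ γ p q, toPreIt.In (Iio γ) p → toPreIt.In (Iio γ) q → em γ p ⊓ em γ q ≠ ⊥ →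
    ∃ r, toPreIt.In (Iio γ) r ∧ toPreIt.LE r p ∧ toPreIt.LE r q

/-- Decreasing sequences have lower bounds. -/
def SigmaClosed (C : Type) [Preorder C] : Prop :=
  ∀ c : ℕ → C, (∀ n, c (n + 1) ≤ c n) → ∃ c', ∀ n, c' ≤ c n

end Pool.Agent.Lib.BSI
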