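import Pool.Agent.Lib.BSI.Proj

/-!
# BSI.Extra: lowering the first coordinate, one step extensions, the generic function of a coordinate
-/

set_option autoImplicit false

open Set

namespace Pool.Agent.Lib.BSI

universe u

/-- the same codes over another element of the base order -/
def Raw.setc {C : Type} (p : Raw C) (c : C) : Raw C := ⟨c, p.f⟩

@[simp] theorem Raw.setc_c {C : Type} (p : Raw C) (c : C) : (p.setc c).c = c := rfl

@[simp] theorem Raw.setc_f {C : Type} (p : Raw C) (c : C) : (p.setc c).f = p.f := rfl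

theorem Raw.setc_rs {C : Type} (p : Raw C) (c : C) (γ : Ordinal.{0}) :
    (p.setc c).rs γ = (p.rs γ).setc c := rfl

namespace It

variable {C : Type} [Preorder C] {Rel : ∀ (B : Type) [CompleteBooleanAlgebra B], RelF B}
variable {S : It C Rel}

/-- lowering the first coordinate -/
theorem setc_spec {I : Set Ordinal.{0}} {p : Raw C} (hp : S.In I p) {c : C} (hc : c ≤ p.c) :
    S.In I (p.setc c) ∧ S.LE (p.setc c) p := by
  have key : ∀ β, S.In (Iio β) ((p.rs β).setc c) ∧ S.LE ((p.rs β).setc c) (p.rs β) := by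
    intro β
    induction β using WellFoundedLT.induction with
    | ind β ih =>
      have hIn : S.In (Iio β) ((p.rs β).setc c) := by
        refine ⟨(hp.rs β).1, (hp.rs β).2.1, (hp.rs β).2.2.1, fun η => ?_⟩
        rcases lt_or_ge η β with h1 | h1
        · obtain ⟨h2, h3⟩ := ih η h1
          have h4 : ((p.rs β).setc c).rs η = (p.rs η).setc c := by
            rw [Raw.setc_rs, Raw.rs_rs _ h1.le]
          rw [h4, Raw.setc_f, Raw.rs_f_lt _ h1]
          exact okc_mono (S.em_mono η _ _ (hp.rs η) h2 h3) (hp.2.2.2 η)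
        · rw [Raw.setc_f, Raw.rs_f_ge _ h1]
          exact okc_zero S η _
      exact ⟨hIn, hc, fun η => lec_refl (hIn.2.2.2 η)⟩
  have hIn : S.In I (p.setc c) := by
    refine ⟨hp.1, hp.2.1, hp.2.2.1, fun η => ?_⟩
    obtain ⟨h2, h3⟩ := key η
    rw [Raw.setc_rs]
    exact okc_mono (S.em_mono η _ _ (hp.rs η) h2 h3) (hp.2.2.2 η)
  exact ⟨hIn, hc, fun η => lec_refl (hIn.2.2.2 η)⟩

/-- extending a condition at the coordinate `γ` -/
theorem step_spec {I : Set Ordinal.{0}} {p r : Raw C} {γ ξ : Ordinal.{0}} (hp : S.In I p)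
    (hr : S.In (Iio γ) r) (h : S.LE r (p.rs γ)) (hξ : ξ < S.ζ γ) (h1 : S.Okc γ (S.em γ r) ξ)
    (h2 : S.Lec γ (S.em γ r) ξ (p.f γ)) :
    S.In univ ((r.upd γ ξ).am p (Order.succ γ)) ∧ S.LE ((r.upd γ ξ).am p (Order.succ γ)) p ∧
      ((r.upd γ ξ).am p (Order.succ γ)).rs γ = r ∧
      ((r.upd γ ξ).am p (Order.succ γ)).f γ = ξ := by
  have h3 : S.In (Iio (Order.succ γ)) (r.upd γ ξ) := upd_In hr hξ h1
  have h4 : p.rs (Order.succ γ) = (p.rs γ).upd γ (p.f γ) := by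
    have h5 := Raw.upd_rs_eq (p := p.rs (Order.succ γ)) (β := γ) (Raw.supp_rs _ _)
    rw [Raw.rs_rs _ (Order.lt_succ γ).le, Raw.rs_f_lt _ (Order.lt_succ γ)] at h5
    exact h5.symm
  have h5 : S.LE (r.upd γ ξ) (p.rs (Order.succ γ)) := by
    rw [h4]
    exact upd_LE hr (hp.rs γ) h h2
  refine ⟨(am_spec hp h3 h5).1.univ, am_le hp h3 h5, ?_, ?_⟩
  · rw [Raw.am_rs_le _ _ (Order.lt_succ γ).le, Raw.upd_rs_self _ hr.1]
  · rw [Raw.am_f_lt _ _ (Order.lt_succ γ), Raw.upd_f_self]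

variable {B : Type u} [CompleteBooleanAlgebra B] {em : S.Cnd univ → B}

/-- the condition `p` decides that the generic function of the coordinate `γ` has the value `k` at `t` -/
def Dec (γ : Ordinal.{0}) (t : (Rel (S.B γ)).Nd) (k : ℕ) (p : S.Cnd univ) : Prop :=
  (Rel (S.B γ)).Val (S.em γ (p.1.rs γ)) (S.e γ (p.1.f γ)) t k

/-- the Boolean value of the statement that the generic function of the coordinate `γ` has the value `k` at `t` -/
noncomputable def gen (em : S.Cnd univ → B) (γ : Ordinal.{0}) (t : (Rel (S.B γ)).Nd) (k : ℕ) : B :=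
  ⨆ p : {p : S.Cnd univ // Dec γ t k p}, em p.1

theorem dec_mono {γ : Ordinal.{0}} {t : (Rel (S.B γ)).Nd} {k : ℕ} {p q : S.Cnd univ} (hq : q ≤ p)
    (h : Dec γ t k p) : Dec γ t k q := by
  have h1 : S.em γ (q.1.rs γ) ≤ S.em γ (p.1.rs γ) := em_rs_mono q.2 p.2 hq γ
  exact (Rel (S.B γ)).val_le (q.2.2.2.2 γ) (okc_mono h1 (p.2.2.2.2 γ)) (hq.2 γ)
    ((Rel (S.B γ)).val_mono h1 h)

theorem exists_dec (p : S.Cnd univ) (γ : Ordinal.{0}) (t : (Rel (S.B γ)).Nd) :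
    ∃ q ≤ p, ∃ k, Dec γ t k q := by
  obtain ⟨b', hb', hne, z', hok, hle, k, hval⟩ :=
    (Rel (S.B γ)).val_ex (S.em_ne γ _ (p.2.rs γ)) (p.2.2.2.2 γ) t
  obtain ⟨r, hr, hrp, hrb⟩ := exists_le' (p.2.rs γ) hne hb'
  obtain ⟨ξ, hξ, rfl⟩ := S.e_surj γ z'
  obtain ⟨h1, h2, h3, h4⟩ := step_spec p.2 hr hrp hξ (okc_mono hrb hok) (lec_mono hrb hle)
  refine ⟨⟨_, h1⟩, h2, k, ?_⟩
  show (Rel (S.B γ)).Val (S.em γ (((r.upd γ ξ).am p.1 (Order.succ γ)).rs γ))
    (S.e γ (((r.upd γ ξ).am p.1 (Order.succ γ)).f γ)) t k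
  rw [h3, h4]
  exact (Rel (S.B γ)).val_mono hrb hval

theorem exists_dec_of (h : Den em) {γ : Ordinal.{0}} {t : (Rel (S.B γ)).Nd} {k : ℕ}
    {p : S.Cnd univ} (hp : em p ≤ gen em γ t k) : ∃ q ≤ p, Dec γ t k q := by
  obtain ⟨q, hq, ⟨x, hx⟩, hqx⟩ := h.exists_em_iSup hp
  obtain ⟨w, hwq, hwx⟩ := h.compat q x (by rw [inf_eq_left.2 hqx]; exact h.ne q)
  exact ⟨w, hwq.trans hq, dec_mono hwx hx⟩

theorem gen_sup (h : Den em) (γ : Ordinal.{0}) (t : (Rel (S.B γ)).Nd) :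
    ⨆ k, gen em γ t k = ⊤ := by
  rw [← top_le_iff]
  refine h.le_of fun p _ => h.em_le_of fun r _ h0 => ?_
  obtain ⟨q, hq, k, hk⟩ := exists_dec r γ t
  apply h.ne q
  rw [← le_bot_iff, ← h0]
  exact le_inf (h.mono hq) (le_iSup_of_le k
    (le_iSup (fun p : {p : S.Cnd univ // Dec γ t k p} => em p.1) ⟨q, hk⟩))

theorem gen_disj (h : Den em) (γ : Ordinal.{0}) (t : (Rel (S.B γ)).Nd) {k l : ℕ} (hkl : k ≠ l) :
    gen em γ t k ⊓ gen em γ t l = ⊥ := by
  by_contra h0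
  obtain ⟨p, hp⟩ := h.dense _ h0
  obtain ⟨q, hq, hqk⟩ := exists_dec_of h (hp.trans inf_le_left)
  obtain ⟨r, hr, hrl⟩ := exists_dec_of h ((h.mono hq).trans (hp.trans inf_le_right))
  exact hkl ((Rel (S.B γ)).val_uniq (S.em_ne γ _ (r.2.rs γ)) (r.2.2.2.2 γ) (dec_mono hr hqk) hrl)

theorem gen_inj (h : Den em) (γ : Ordinal.{0}) (s t : (Rel (S.B γ)).Nd) (k : ℕ) :
    gen em γ s k ⊓ gen em γ t k ⊓ upg em (S.emc γ) (S.res γ) ((Rel (S.B γ)).lt s t) = ⊥ := by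
  by_contra h0
  obtain ⟨p, hp⟩ := h.dense _ h0
  obtain ⟨q, hq, hqk⟩ := exists_dec_of h (hp.trans (inf_le_left.trans inf_le_left))
  obtain ⟨r, hr, hrl⟩ := exists_dec_of h
    ((h.mono hq).trans (hp.trans (inf_le_left.trans inf_le_right)))
  have h1 : em r ≤ upg em (S.emc γ) (S.res γ) ((Rel (S.B γ)).lt s t) :=
    (h.mono (hr.trans hq)).trans (hp.trans inf_le_right)
  rw [em_le_upg h (S.den γ) (S.res_mono γ) (S.res_proj (subset_univ _))] at h1
  exact (Rel (S.B γ)).val_lt (S.em_ne γ _ (r.2.rs γ)) (r.2.2.2.2 γ) h1 (dec_mono hr hqk) hrl rfl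

end It

end Pool.Agent.Lib.BSI
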