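import Pool.Agent.Lib.BSI.Proj

/-!
# BSI.Lim: the limit of a fusion sequence

MODULE TO PROVE.

PROOF. For every `β` let `b β = ⨅ n, em β ((p n).rs β)`. There are codes `g β < ζ β` with `Okc β (b β) (g β)`,
`Lec β (b β) (g β) ((p n).f β)` for all `n`, and `g β = 0` if `β` is in no `F n`:
if `β` is in no `F n` then all `(p n).f β = 0`. If `β ∈ F n₀` then `β ∈ F n` for all `n ≥ n₀`; apply `RelF.limit` to
`b' j = em β ((p (n₀ + j)).rs β)`, `z j = S.e β ((p (n₀ + j)).f β)`, `K (n₀ + j)`, `ε (n₀ + j)`, the constants `c` of `hεc`, and the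
element `b β` (`Win` by `win_mono`, `ε (n₀ + j) ≤ min 1 c / 2^(n₀+j+2) ≤ min 1 c / 2^(j+2)`; `b'` is decreasing by `em_rs_mono`);
for `n < n₀` use `Lec` for `p n₀ ≤ p n` (`letrans` along the sequence) and transitivity over `b β`.
`q = ⟨c', g⟩` with a lower bound `c'` of the `(p n).c` (`SigmaClosed`). By strong induction on `γ`: `In (Iio γ) (q.rs γ)` and
`LE (q.rs γ) ((p n).rs γ)` for all `n`, hence `em γ (q.rs γ) ≤ b γ` (`em_mono`, `le_iInf`): at a coordinate `η < γ` use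
`em η (q.rs η) ≤ b η` (induction hypothesis) and monotonicity. The support of `q` is contained in the union of the `F n`.
-/

set_option autoImplicit false

open Set

namespace Pool.Agent.Lib.BSI.It

variable {C : Type} [Preorder C] {Rel : ∀ (B : Type) [CompleteBooleanAlgebra B], RelF B}
variable {S : It C Rel}

namespace LimAux

theorem code (p : ℕ → Raw C) (F : ℕ → Finset Ordinal.{0})
    (K : ℕ → ℕ) (ε : ℕ → ℝ) {I : Set Ordinal.{0}} (hp : ∀ n, S.In I (p n))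
    (hle : ∀ m n, m ≤ n → S.LE (p n) (p m))
    (hF : ∀ n, F n ⊆ F (n + 1))
    (hsupp : ∀ n β, (p n).f β ≠ 0 → ∃ m, β ∈ F m) (hK : ∀ n, K n < K (n + 1)) (hε : ∀ n, 0 ≤ ε n)
    (hεc : ∀ n, ∀ β ∈ F n, ∃ c : ℝ, 0 < c ∧
      (Rel (S.B β)).Mass c (S.em β ((p n).rs β)) (S.e β ((p n).f β)) ∧ ε n ≤ min 1 c / 2 ^ (n + 2))
    (hwin : ∀ n, ∀ β ∈ F n,
      (Rel (S.B β)).Win n (K n) (K (n + 1)) (S.em β ((p n).rs β)) (S.e β ((p n).f β)))
    (hctl : ∀ n, ∀ β ∈ F n, (Rel (S.B β)).Ctl (K (n + 1)) (ε n) (S.em β ((p (n + 1)).rs β))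
      (S.e β ((p (n + 1)).f β)) (S.e β ((p n).f β))) (β : Ordinal.{0}) :
    ∃ g < S.ζ β, S.Okc β (⨅ n, S.em β ((p n).rs β)) g ∧
      (∀ n, S.Lec β (⨅ n, S.em β ((p n).rs β)) g ((p n).f β)) ∧ ((∀ m, β ∉ F m) → g = 0) := by
  by_cases h0 : ∀ m, β ∉ F m
  · have h1 : ∀ n, (p n).f β = 0 := by
      intro n
      by_contra h2
      obtain ⟨m, hm⟩ := hsupp n β h2
      exact h0 m hm
    refine ⟨0, S.ζ_pos β, okc_zero S β _, fun n => ?_, fun _ => rfl⟩
    rw [h1 n]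
    exact lec_refl (okc_zero S β _)
  · push Not at h0
    obtain ⟨n₀, hn₀⟩ := h0
    have hFm : ∀ j, β ∈ F (n₀ + j) := by
      intro j
      induction j with
      | zero => exact hn₀
      | succ j ih => exact hF _ ih
    choose c hc0 hcM hcε using fun j => hεc (n₀ + j) β (hFm j)
    have hb : ∀ n, (⨅ n, S.em β ((p n).rs β)) ≤ S.em β ((p n).rs β) := fun n => iInf_le _ n
    obtain ⟨z', hz', hle'⟩ := (Rel (S.B β)).limit (fun j => S.em β ((p (n₀ + j)).rs β))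
      (fun j => S.e β ((p (n₀ + j)).f β)) (fun j => K (n₀ + j)) (fun j => ε (n₀ + j)) c
      (⨅ n, S.em β ((p n).rs β)) (fun j => (hp (n₀ + j)).2.2.2 β)
      (fun j => em_rs_mono (hp (n₀ + (j + 1))) (hp (n₀ + j)) (hle _ _ (by omega)) β)
      (fun j => hK (n₀ + j)) hc0 hcM (fun j => hε (n₀ + j))
      (fun j => (hcε j).trans (by
        have h1 : (0 : ℝ) ≤ min 1 (c j) := le_min zero_le_one (hc0 j).le
        apply div_le_div_of_nonneg_left h1 (by positivity)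
        exact pow_le_pow_right₀ (by norm_num) (by omega)))
      (fun j => (Rel (S.B β)).win_mono (by omega) le_rfl le_rfl (hwin (n₀ + j) β (hFm j)))
      (fun j => hctl (n₀ + j) β (hFm j)) (fun j => hb _)
    obtain ⟨g, hg, hge⟩ := S.e_surj β z'
    have hok : S.Okc β (⨅ n, S.em β ((p n).rs β)) g := by
      unfold PreIt.Okc
      rw [hge]
      exact hz'
    refine ⟨g, hg, hok, fun n => ?_, fun h => absurd (hFm 0) (h _)⟩
    have hge' : ∀ j, S.Lec β (⨅ n, S.em β ((p n).rs β)) g ((p (n₀ + j)).f β) := by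
      intro j
      unfold PreIt.Lec
      rw [hge]
      exact hle' j
    rcases le_total n₀ n with h | h
    · obtain ⟨j, rfl⟩ := Nat.exists_eq_add_of_le h
      exact hge' j
    · exact lec_trans hok (okc_mono (hb n₀) ((hp n₀).2.2.2 β)) (okc_mono (hb n) ((hp n).2.2.2 β))
        (hge' 0) (lec_mono (hb n₀) ((hle n n₀ h).2 β))

end LimAux

theorem lim (hC : SigmaClosed C) {I : Set Ordinal.{0}} (p : ℕ → Raw C) (F : ℕ → Finset Ordinal.{0})
    (K : ℕ → ℕ) (ε : ℕ → ℝ) (hp : ∀ n, S.In I (p n)) (hle : ∀ n, S.LE (p (n + 1)) (p n))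
    (hFI : ∀ n, ∀ β ∈ F n, β ∈ I) (hF : ∀ n, F n ⊆ F (n + 1))
    (hsupp : ∀ n β, (p n).f β ≠ 0 → ∃ m, β ∈ F m) (hK : ∀ n, K n < K (n + 1)) (hε : ∀ n, 0 ≤ ε n)
    (hεc : ∀ n, ∀ β ∈ F n, ∃ c : ℝ, 0 < c ∧
      (Rel (S.B β)).Mass c (S.em β ((p n).rs β)) (S.e β ((p n).f β)) ∧ ε n ≤ min 1 c / 2 ^ (n + 2))
    (hwin : ∀ n, ∀ β ∈ F n,
      (Rel (S.B β)).Win n (K n) (K (n + 1)) (S.em β ((p n).rs β)) (S.e β ((p n).f β)))
    (hctl : ∀ n, ∀ β ∈ F n, (Rel (S.B β)).Ctl (K (n + 1)) (ε n) (S.em β ((p (n + 1)).rs β))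
      (S.e β ((p (n + 1)).f β)) (S.e β ((p n).f β))) :
    ∃ q, S.In I q ∧ ∀ n, S.LE q (p n) := by
  have hle' : ∀ m n, m ≤ n → S.LE (p n) (p m) := by
    intro m n hmn
    induction n, hmn using Nat.le_induction with
    | base => exact lerefl (hp m)
    | succ n hmn ih => exact letrans (hp (n + 1)) (hp n) (hp m) (hle n) ih
  choose g hgζ hgok hgle hg0 using
    LimAux.code p F K ε hp hle' hF hsupp hK hε hεc hwin hctl
  obtain ⟨c', hc'⟩ := hC (fun n => (p n).c) (fun n => (hle n).1)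
  obtain ⟨q, hqc, hqf⟩ : ∃ q : Raw C, q.c = c' ∧ q.f = g := ⟨⟨c', g⟩, rfl, rfl⟩
  have hqsupp : ∀ β, q.f β ≠ 0 → ∃ m, β ∈ F m := by
    intro β hβ
    by_contra h
    push Not at h
    rw [hqf] at hβ
    exact hβ (hg0 β h)
  have hcount : q.supp.Countable := by
    refine (countable_iUnion (fun n => (F n).countable_toSet)).mono (fun β hβ => ?_)
    obtain ⟨m, hm⟩ := hqsupp β hβ
    exact mem_iUnion.2 ⟨m, hm⟩
  have key : ∀ γ, (∀ η < γ, S.em η (q.rs η) ≤ ⨅ n, S.em η ((p n).rs η)) →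
      S.In (Iio γ) (q.rs γ) ∧ ∀ n, S.LE (q.rs γ) ((p n).rs γ) := by
    intro γ hγ
    refine ⟨⟨Raw.supp_rs q γ, hcount.mono (Raw.supp_rs_sub q γ), fun β => ?_, fun β => ?_⟩,
      fun n => ⟨?_, fun β => ?_⟩⟩
    · rcases lt_or_ge β γ with h1 | h1
      · rw [Raw.rs_f_lt _ h1, hqf]
        exact hgζ β
      · rw [Raw.rs_f_ge _ h1]
        exact S.ζ_pos β
    · rcases lt_or_ge β γ with h1 | h1
      · rw [Raw.rs_f_lt _ h1, Raw.rs_rs _ h1.le, hqf]
        exact okc_mono (hγ β h1) (hgok β)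
      · rw [Raw.rs_f_ge _ h1]
        exact okc_zero S β _
    · rw [Raw.rs_c, Raw.rs_c, hqc]
      exact hc' n
    · rcases lt_or_ge β γ with h1 | h1
      · rw [Raw.rs_f_lt _ h1, Raw.rs_f_lt _ h1, Raw.rs_rs _ h1.le, hqf]
        exact lec_mono (hγ β h1) (hgle β n)
      · rw [Raw.rs_f_ge _ h1, Raw.rs_f_ge _ h1]
        exact lec_refl (okc_zero S β _)
  have hall : ∀ γ, S.em γ (q.rs γ) ≤ ⨅ n, S.em γ ((p n).rs γ) := by
    intro γ
    induction γ using WellFoundedLT.induction with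
    | ind γ ih =>
      obtain ⟨h1, h2⟩ := key γ ih
      exact le_iInf (fun n => S.em_mono γ _ _ ((hp n).rs γ) h1 (h2 n))
  refine ⟨q, ⟨?_, hcount, fun β => ?_, fun β => ?_⟩, fun n => ⟨?_, fun β => ?_⟩⟩
  · intro β hβ
    obtain ⟨m, hm⟩ := hqsupp β hβ
    exact hFI m β hm
  · rw [hqf]
    exact hgζ β
  · rw [hqf]
    exact okc_mono (hall β) (hgok β)
  · rw [hqc]
    exact hc' n
  · rw [hqf]
    exact lec_mono (hall β) (hgle β n)

end Pool.Agent.Lib.BSI.It
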