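import Pool.Agent.Lib.BSI.CtlExt
import Pool.Agent.Lib.BSI.Lim

/-!
# BSI.Fus: fusion

PROVED.

PROOF. Build by recursion `p 0 = p`, finite sets `F n`, numbers `K n`, reals `ε n` and finite families `d n` in `D n` predense below
`p (n + 1)` as in `lim`: given `p n`, `F n`, `K n`:
`K (n+1)` = a number `> K n` with `Win n (K n) (K (n+1)) (em β ((p n).rs β)) (e β ((p n).f β))` for all `β ∈ F n` (`win_ex`, `win_mono`,
finite maximum); for `β ∈ F n` choose `c > 0` with `Mass c` (`mass_ex`), `ε n` = minimum over `F n` of `min 1 c / 2^(n+2)` (`> 0`, and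
`1/2^(n+2)` if `F n = ∅`); `ctlExt (F n)` with `K (n+1)`, `ε n` and the set `D n` (it is open and dense below `p n`, because `p n ≤ p`)
gives `p (n+1)`.
BOOKKEEPING for `F`: every element of the support of every `p n` must be in some `F m`, and `F n ⊆ F (n+1)`, `F n ⊆ I`. One way: carry along
`a n : ℕ → Ordinal` with `supp (p n) ⊆ range (a n)`, `a (n+1) (2 k) = a n k` and `a (n+1) (2 k + 1)` an enumeration of the support of
`p (n+1)` (countable), and let `F n` be the set of those `a n k`, `k ≤ n * 2^n`, which are in `I` (`a n k = a (n+j) (2^j k)`). Another way: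
carry the finite list of all enumerations chosen so far.
`lim` gives `q` below all `p n`; the families stay predense below `q` (`letrans`).
-/

set_option autoImplicit false

open Set

namespace Pool.Agent.Lib.BSI.It

variable {C : Type} [Preorder C] {Rel : ∀ (B : Type) [CompleteBooleanAlgebra B], RelF B}
variable {S : It C Rel}

namespace FusAux

/-- one step of the fusion -/
theorem step {I : Set Ordinal.{0}} (hI : IsLowerSet I) (hW : ∀ β ∈ I, WDist (S.B β))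
    {p q : Raw C} (hp : S.In I p) (hq : S.In I q) (hqp : S.LE q p) (F : Finset Ordinal.{0})
    (hF : ∀ β ∈ F, β ∈ I) (n K : ℕ) {D : Set (Raw C)} (hD : S.OD I p D) :
    ∃ (q' : Raw C) (K' : ℕ) (ε : ℝ), S.In I q' ∧ S.LE q' q ∧ K < K' ∧ 0 ≤ ε ∧
      (∀ β ∈ F, ∃ c : ℝ, 0 < c ∧
        (Rel (S.B β)).Mass c (S.em β (q.rs β)) (S.e β (q.f β)) ∧ ε ≤ min 1 c / 2 ^ (n + 2)) ∧
      (∀ β ∈ F, (Rel (S.B β)).Win n K K' (S.em β (q.rs β)) (S.e β (q.f β))) ∧
      (∀ β ∈ F, (Rel (S.B β)).Ctl K' ε (S.em β (q'.rs β)) (S.e β (q'.f β)) (S.e β (q.f β))) ∧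
      ∃ (m : ℕ) (d : Fin m → Raw C), (∀ k, d k ∈ D) ∧ S.Pd I q' (range d) := by
  classical
  -- the number
  have h1 : ∃ K', K < K' ∧ ∀ β ∈ F, (Rel (S.B β)).Win n K K' (S.em β (q.rs β)) (S.e β (q.f β)) := by
    clear hF
    induction F using Finset.induction_on with
    | empty => exact ⟨K + 1, Nat.lt_succ_self K, fun β hβ => absurd hβ (Finset.notMem_empty β)⟩
    | insert β F' hβ ih =>
      obtain ⟨K₁, hK₁, h2⟩ := ih
      obtain ⟨K₂, hK₂, h3⟩ := (Rel (S.B β)).win_ex (hq.2.2.2 β) n K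
      refine ⟨max K₁ K₂, lt_max_of_lt_left hK₁, fun η hη => ?_⟩
      rcases Finset.mem_insert.1 hη with h4 | h4
      · subst h4
        exact (Rel (S.B η)).win_mono le_rfl (le_max_right _ _) le_rfl h3
      · exact (Rel (S.B η)).win_mono le_rfl (le_max_left _ _) le_rfl (h2 η h4)
  -- the real number
  have h2 : ∃ ε : ℝ, 0 < ε ∧ ∀ β ∈ F, ∃ c : ℝ, 0 < c ∧
      (Rel (S.B β)).Mass c (S.em β (q.rs β)) (S.e β (q.f β)) ∧ ε ≤ min 1 c / 2 ^ (n + 2) := by
    clear hF h1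
    induction F using Finset.induction_on with
    | empty => exact ⟨1, one_pos, fun β hβ => absurd hβ (Finset.notMem_empty β)⟩
    | insert β F' hβ ih =>
      obtain ⟨ε₁, hε₁, h2⟩ := ih
      obtain ⟨c, hc, h3⟩ := (Rel (S.B β)).mass_ex (hq.2.2.2 β)
      have h5 : 0 < min 1 c / 2 ^ (n + 2) := div_pos (lt_min one_pos hc) (by positivity)
      refine ⟨min ε₁ (min 1 c / 2 ^ (n + 2)), lt_min hε₁ h5, fun η hη => ?_⟩
      rcases Finset.mem_insert.1 hη with h4 | h4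
      · subst h4
        exact ⟨c, hc, h3, min_le_right _ _⟩
      · obtain ⟨c', hc', h6, h7⟩ := h2 η h4
        exact ⟨c', hc', h6, (min_le_left _ _).trans h7⟩
  obtain ⟨K', hK, hwin⟩ := h1
  obtain ⟨ε, hε, hmass⟩ := h2
  have hD' : S.OD I q D :=
    ⟨hD.1, hD.2.1, fun r hr hrq => hD.2.2 r hr (letrans hr hq hp hrq hqp)⟩
  obtain ⟨q', m, d, hq', hq'q, hd, hpd, hctl⟩ :=
    ctlExt F hI hF (fun β hβ => hW β (hF β hβ)) hq K' hε hD'
  exact ⟨q', K', ε, hq', hq'q, hK, hε.le, hmass, hwin, hctl, m, d, hd, hpd⟩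

/-- an enumeration of the support -/
theorem enum {I : Set Ordinal.{0}} {q : Raw C} (hq : S.In I q) :
    ∃ a : ℕ → Ordinal.{0}, q.supp ⊆ range a := by
  rcases q.supp.eq_empty_or_nonempty with h | h
  · exact ⟨fun _ => 0, by rw [h]; exact empty_subset _⟩
  · obtain ⟨a, ha⟩ := hq.2.1.exists_eq_range h
    exact ⟨a, ha.le⟩

open Classical in
/-- the finite set of a finite set of enumerations -/
noncomputable def Fn (I : Set Ordinal.{0}) (n : ℕ) (H : Finset (ℕ → Ordinal.{0})) : Finset Ordinal.{0} :=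
  (H.biUnion (fun a => (Finset.range (n + 1)).image a)).filter (· ∈ I)

theorem mem_Fn {I : Set Ordinal.{0}} {n : ℕ} {H : Finset (ℕ → Ordinal.{0})} {β : Ordinal.{0}} :
    β ∈ Fn I n H ↔ (∃ a ∈ H, ∃ k ≤ n, a k = β) ∧ β ∈ I := by
  simp only [Fn, Finset.mem_filter, Finset.mem_biUnion, Finset.mem_image, Finset.mem_range,
    Nat.lt_succ_iff]

end FusAux

open FusAux

theorem fus (hC : SigmaClosed C) {I : Set Ordinal.{0}} (hI : IsLowerSet I) (hW : ∀ β ∈ I, WDist (S.B β))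
    {p : Raw C} (hp : S.In I p) (D : ℕ → Set (Raw C)) (hD : ∀ n, S.OD I p (D n)) :
    ∃ q, S.In I q ∧ S.LE q p ∧ ∀ n, ∃ (m : ℕ) (d : Fin m → Raw C), (∀ k, d k ∈ D n) ∧
      S.Pd I q (range d) := by
  classical
  -- the states
  let St := {s : Raw C × ℕ × Finset (ℕ → Ordinal.{0}) // S.In I s.1 ∧ S.LE s.1 p}
  have key : ∀ (n : ℕ) (s : St), ∃ (s' : St) (ε : ℝ), S.LE s'.1.1 s.1.1 ∧ s.1.2.1 < s'.1.2.1 ∧
      0 ≤ ε ∧
      (∀ β ∈ Fn I n s.1.2.2, ∃ c : ℝ, 0 < c ∧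
        (Rel (S.B β)).Mass c (S.em β (s.1.1.rs β)) (S.e β (s.1.1.f β)) ∧
          ε ≤ min 1 c / 2 ^ (n + 2)) ∧
      (∀ β ∈ Fn I n s.1.2.2,
        (Rel (S.B β)).Win n s.1.2.1 s'.1.2.1 (S.em β (s.1.1.rs β)) (S.e β (s.1.1.f β))) ∧
      (∀ β ∈ Fn I n s.1.2.2, (Rel (S.B β)).Ctl s'.1.2.1 ε (S.em β (s'.1.1.rs β))
        (S.e β (s'.1.1.f β)) (S.e β (s.1.1.f β))) ∧
      (∃ (m : ℕ) (d : Fin m → Raw C), (∀ k, d k ∈ D n) ∧ S.Pd I s'.1.1 (range d)) ∧
      s.1.2.2 ⊆ s'.1.2.2 ∧ ∃ a ∈ s'.1.2.2, s'.1.1.supp ⊆ range a := by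
    rintro n ⟨⟨q, K, H⟩, hq, hqp⟩
    obtain ⟨q', K', ε, h1, h2, h3, h4, h5, h6, h7, h8⟩ :=
      step hI hW hp hq hqp (Fn I n H) (fun β hβ => (mem_Fn.1 hβ).2) n K (hD n)
    obtain ⟨a, ha⟩ := enum h1
    exact ⟨⟨⟨q', K', insert a H⟩, h1, letrans h1 hq hp h2 hqp⟩, ε, h2, h3, h4, h5, h6, h7, h8,
      Finset.subset_insert a H, a, Finset.mem_insert_self a H, ha⟩
  choose nx ep hnx using key
  obtain ⟨a₀, ha₀⟩ := enum hp
  let s₀ : St := ⟨⟨p, 0, {a₀}⟩, hp, lerefl hp⟩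
  let s : ℕ → St := fun n => Nat.rec s₀ (fun n t => nx n t) n
  have hs0 : s 0 = s₀ := rfl
  have hss : ∀ n, s (n + 1) = nx n (s n) := fun n => rfl
  clear_value s
  have hen : ∀ n, ∃ a ∈ (s n).1.2.2, (s n).1.1.supp ⊆ range a := by
    intro n
    cases n with
    | zero =>
      rw [hs0]
      exact ⟨a₀, Finset.mem_singleton_self a₀, ha₀⟩
    | succ n =>
      rw [hss n]
      exact (hnx n (s n)).2.2.2.2.2.2.2.2
  have hH : ∀ n, (s n).1.2.2 ⊆ (s (n + 1)).1.2.2 := by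
    intro n
    rw [hss n]
    exact (hnx n (s n)).2.2.2.2.2.2.2.1
  have hHm : ∀ m n, m ≤ n → (s m).1.2.2 ⊆ (s n).1.2.2 := by
    intro m n hmn
    induction n, hmn using Nat.le_induction with
    | base => exact Finset.Subset.refl _
    | succ n hmn ih => exact ih.trans (hH n)
  have hle : ∀ n, S.LE (s (n + 1)).1.1 (s n).1.1 := by
    intro n
    rw [hss n]
    exact (hnx n (s n)).1
  obtain ⟨q, hq, hqs⟩ := lim hC (fun n => (s n).1.1) (fun n => Fn I n (s n).1.2.2)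
    (fun n => (s n).1.2.1) (fun n => ep n (s n)) (fun n => (s n).2.1) hle
    (fun n β hβ => (mem_Fn.1 hβ).2)
    (fun n β hβ => by
      obtain ⟨⟨a, ha, k, hk, hak⟩, hβI⟩ := mem_Fn.1 hβ
      exact mem_Fn.2 ⟨⟨a, hH n ha, k, hk.trans (Nat.le_succ n), hak⟩, hβI⟩)
    (fun n β hβ => by
      obtain ⟨a, ha, hsup⟩ := hen n
      obtain ⟨k, hk⟩ := hsup hβ
      exact ⟨max n k, mem_Fn.2 ⟨⟨a, hHm n _ (le_max_left n k) ha, k, le_max_right n k, hk⟩,
        (s n).2.1.1 hβ⟩⟩)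
    (fun n => by
      have h := (hnx n (s n)).2.1
      rw [← hss n] at h
      exact h)
    (fun n => (hnx n (s n)).2.2.1)
    (fun n => (hnx n (s n)).2.2.2.1)
    (fun n β hβ => by
      have h := (hnx n (s n)).2.2.2.2.1 β hβ
      rw [← hss n] at h
      exact h)
    (fun n β hβ => by
      have h := (hnx n (s n)).2.2.2.2.2.1 β hβ
      rw [← hss n] at h
      exact h)
  refine ⟨q, hq, ?_, fun n => ?_⟩
  · have h := hqs 0
    simp only [hs0] at h
    exact h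
  · obtain ⟨m, d, hd, hpd⟩ := (hnx n (s n)).2.2.2.2.2.2.1
    rw [← hss n] at hpd
    exact ⟨m, d, hd, fun r hr hrq =>
      hpd r hr (letrans hr hq (s (n + 1)).2.1 hrq (hqs (n + 1)))⟩

end Pool.Agent.Lib.BSI.It
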