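import Pool.Agent.Lib.BSI.Proj

/-!
# BSI.Mix: mixtures

MODULE TO PROVE. `c` is a condition below `γ`, `d 0, ..., d (n-1)` are conditions with support in `I` below `p`, and
their restrictions to `γ` are predense below `c`. Then there is a condition `q` with `q.rs γ = c` below `p` such
that `d 0, ..., d (n-1)` are predense below `q`.

PROOF. `f k = em γ c ⊓ em γ ((d k).rs γ)`, `e = disjointed f`; then `⨆ k, e k = em γ c` (predense). For `δ ≥ γ` put
`u δ k = up γ δ (e k) ⊓ em δ ((d k).rs δ)` (pairwise disjoint, `up_disjoint`) and apply `RelF.glue` to `u δ` and the objects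
`S.e δ ((d k).f δ)` (valid by `okc_mono`); with `e_surj` this gives codes `g δ < ζ δ` with `Okc δ (⨆ k, u δ k) (g δ)`
and `Lec δ (u δ k) (g δ) ((d k).f δ)`; take `g δ = 0` if `(d k).f δ = 0` for all `k` (so the support is countable and in `I`).
`q.f δ = c.f δ` for `δ < γ` and `g δ` for `δ ≥ γ`. By strong induction on `δ ≥ γ`:
 (A) `In (Iio δ) (q.rs δ)`  (for `η ∈ [γ, δ)`: `em η (q.rs η) ≤ up γ η (⨆ e k) = ⨆ up γ η (e k)` by `em_le_up`, `up_iSup`, so
     `em η (q.rs η) = ⨆ (em η (q.rs η) ⊓ up γ η (e k)) ≤ ⨆ u η k` by (B) for `η`, and `okc_mono`);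
 (B) `em δ (q.rs δ) ⊓ up γ δ (e k) ≤ em δ ((d k).rs δ)`: let `r` be a condition with `em δ r ≤` the left side; choose a common
     extension `r₁` of `r` and `q.rs δ`; `em γ (r₁.rs γ) ≤ e k ≤ em γ ((d k).rs γ)` (`em_le_up`), so there is `r₀` below `r₁.rs γ` and
     `(d k).rs γ`; `r₂ = r₀.am r₁ γ ≤ r₁` and `r₂ ≤ (d k).rs δ` by the
 LEMMA. If `r` is a condition, `LE (r.rs γ) ((d k).rs γ)`, `em γ (r.rs γ) ≤ e k`, `LE (r.rs η) (q.rs η)` and `Lec η (em η (r.rs η)) (r.f η) (g η)`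
     for `η ∈ [γ, δ)`, and (A), (B) hold for these `η`, then `Lec η (em η (r.rs η)) (r.f η) ((d k).f η)` for all `η < δ`:
     `em η (r.rs η) ≤ em η (q.rs η) ⊓ up γ η (e k) ≤ em η ((d k).rs η)`, so it is `≤ u η k`; transitivity of `Lec`.
`LE q p`: over `u δ k` we have `g δ ≤ (d k).f δ ≤ p.f δ`; `RelF.le_sup` finitely often (`n ≥ 1`, because `c` is below itself).
Predense: `r ≤ q`, `em γ (r.rs γ) ≤ em γ c = ⨆ e k`; choose `k` and `r₀` below `r.rs γ` and `(d k).rs γ` with `em γ r₀ ≤ e k`; `r₀.am r γ` is below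
`r` and below `d k` (LEMMA for all `δ`).
-/

set_option autoImplicit false

open Set

namespace Pool.Agent.Lib.BSI.It

variable {C : Type} [Preorder C] {Rel : ∀ (B : Type) [CompleteBooleanAlgebra B], RelF B}
variable {S : It C Rel}

namespace MixAux

/-- finite suprema -/
theorem le_iSup_fin {B : Type} [CompleteBooleanAlgebra B] (R : RelF B) {n : ℕ} [Nonempty (Fin n)]
    (u : Fin n → B) {z z' : R.Obj} (h : ∀ k, R.Le (u k) z' z) : R.Le (⨆ k, u k) z' z := by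
  have h1 := Finset.sup'_induction (s := (Finset.univ : Finset (Fin n))) Finset.univ_nonempty u
    (p := fun b => R.Le b z' z) (fun a ha b hb => R.le_sup ha hb) (fun k _ => h k)
  rwa [Finset.sup'_eq_sup, Finset.sup_univ_eq_iSup] at h1

/-- a disjoint refinement -/
theorem exists_disj {B : Type} [CompleteBooleanAlgebra B] {n : ℕ} (f : Fin n → B) :
    ∃ e : Fin n → B, (∀ k, e k ≤ f k) ∧ Pairwise (fun i j => Disjoint (e i) (e j)) ∧
      ⨆ k, e k = ⨆ k, f k := by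
  refine ⟨disjointed f, fun k => disjointed_le f k, disjoint_disjointed f, iSup_disjointed f⟩

end MixAux

theorem mix {I : Set Ordinal.{0}} (hI : IsLowerSet I) {γ : Ordinal.{0}} (hγ : Iio γ ⊆ I) {p c : Raw C}
    (hp : S.In I p) (hc : S.In (Iio γ) c) (hcp : S.LE c (p.rs γ)) {n : ℕ} (d : Fin n → Raw C)
    (hd : ∀ k, S.In I (d k)) (hdp : ∀ k, S.LE (d k) p)
    (hpd : S.Pd (Iio γ) c (range fun k => (d k).rs γ)) :
    ∃ q, S.In I q ∧ q.rs γ = c ∧ S.LE q p ∧ S.Pd I q (range d) := by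
  classical
  -- the disjoint pieces of `em γ c`
  obtain ⟨e, he1, he2, he3⟩ := MixAux.exists_disj fun k => S.em γ c ⊓ S.em γ ((d k).rs γ)
  have hcov : S.em γ c ≤ ⨆ k, e k := by
    rw [he3, ← inf_iSup_eq]
    refine le_inf le_rfl ?_
    have h1 := em_le_iSup_of_pd hc (Q := range fun k => (d k).rs γ) (by
      rintro _ ⟨k, rfl⟩
      exact (hd k).rs γ) hpd
    rwa [iSup_range] at h1
  have hed : ∀ k, e k ≤ S.em γ ((d k).rs γ) := fun k => (he1 k).trans inf_le_right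
  have hne : Nonempty (Fin n) := by
    by_contra hcon
    have : IsEmpty (Fin n) := not_nonempty_iff.1 hcon
    apply S.em_ne γ c hc
    rw [← le_bot_iff]
    refine hcov.trans ?_
    rw [iSup_of_empty]
  -- the pieces at `δ`
  let u : ∀ δ : Ordinal.{0}, Fin n → S.B δ := fun δ k => S.up γ δ (e k) ⊓ S.em δ ((d k).rs δ)
  have huok : ∀ δ k, S.Okc δ (u δ k) ((d k).f δ) := fun δ k =>
    okc_mono inf_le_right ((hd k).2.2.2 δ)
  have hglue : ∀ δ : Ordinal.{0}, ∃ ξ : Ordinal.{0}, γ ≤ δ → ξ < S.ζ δ ∧ S.Okc δ (⨆ k, u δ k) ξ ∧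
      (∀ k, S.Lec δ (u δ k) ξ ((d k).f δ)) ∧ ((∀ k, (d k).f δ = 0) → ξ = 0) := by
    intro δ
    by_cases hδ : γ ≤ δ
    swap
    · exact ⟨0, fun h => absurd h hδ⟩
    by_cases h0 : ∀ k, (d k).f δ = 0
    · refine ⟨0, fun _ => ⟨S.ζ_pos δ, okc_zero S δ _, fun k => ?_, fun _ => rfl⟩⟩
      rw [h0 k]
      exact lec_refl (okc_zero S δ _)
    · have hdis : Pairwise (fun i j => Disjoint (u δ i) (u δ j)) := fun i j hij =>
        (up_disjoint hδ (he2 hij)).mono inf_le_left inf_le_left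
      obtain ⟨z, hz1, hz2⟩ := (Rel (S.B δ)).glue n (u δ) (fun k => S.e δ ((d k).f δ)) hdis
        (fun k => huok δ k)
      obtain ⟨ξ, hξ1, hξ2⟩ := S.e_surj δ z
      refine ⟨ξ, fun _ => ⟨hξ1, ?_, fun k => ?_, fun h => absurd h h0⟩⟩
      · show (Rel (S.B δ)).Ok _ _
        rw [hξ2]
        exact hz1
      · show (Rel (S.B δ)).Le _ _ _
        rw [hξ2]
        exact hz2 k
  choose g hg using hglue
  -- the condition
  set q : Raw C := c.am ⟨c.c, g⟩ γ with hq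
  have hqγ : q.rs γ = c := Raw.am_rs_self _ hc.1
  have hqlt : ∀ {β : Ordinal.{0}}, β < γ → q.f β = c.f β := fun h => Raw.am_f_lt _ _ h
  have hqge : ∀ {β : Ordinal.{0}}, γ ≤ β → q.f β = g β := fun h => Raw.am_f_ge _ _ h
  have hqrs : ∀ {β : Ordinal.{0}}, β ≤ γ → q.rs β = c.rs β := fun h => Raw.am_rs_le _ _ h
  have hsupp : q.supp ⊆ c.supp ∪ ⋃ k, (d k).supp := by
    intro β hβ
    rcases lt_or_ge β γ with h | h
    · left
      intro h1
      exact hβ (by rw [hqlt h, h1])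
    · right
      by_contra hcon
      apply hβ
      rw [hqge h]
      apply (hg β h).2.2.2
      intro k
      by_contra h1
      exact hcon (mem_iUnion.2 ⟨k, h1⟩)
  have hcount : q.supp.Countable :=
    (hc.2.1.union (countable_iUnion fun k => (hd k).2.1)).mono hsupp
  have hcode : ∀ β, q.f β < S.ζ β := by
    intro β
    rcases lt_or_ge β γ with h | h
    · rw [hqlt h]
      exact hc.2.2.1 β
    · rw [hqge h]
      exact (hg β h).1
  -- covering from (A) and (B)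
  have cover : ∀ β, γ ≤ β → S.In (Iio β) (q.rs β) →
      (∀ k, S.em β (q.rs β) ⊓ S.up γ β (e k) ≤ S.em β ((d k).rs β)) →
      S.em β (q.rs β) ≤ ⨆ k, u β k := by
    intro β hβ hA hB
    have h1 : S.em β (q.rs β) ≤ S.up γ β (⨆ k, e k) := by
      rw [em_le_up hβ hA, Raw.rs_rs _ hβ, hqγ]
      exact hcov
    rw [up_iSup hβ] at h1
    calc S.em β (q.rs β) = S.em β (q.rs β) ⊓ ⨆ k, S.up γ β (e k) := (inf_eq_left.2 h1).symm
      _ = ⨆ k, S.em β (q.rs β) ⊓ S.up γ β (e k) := inf_iSup_eq _ _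
      _ ≤ ⨆ k, u β k := iSup_mono fun k => le_inf inf_le_right (hB k)
  -- the lemma
  have key : ∀ (δ : Ordinal.{0}) (k : Fin n),
      (∀ η, γ ≤ η → η < δ → S.In (Iio η) (q.rs η)) →
      (∀ η, γ ≤ η → η < δ → S.em η (q.rs η) ⊓ S.up γ η (e k) ≤ S.em η ((d k).rs η)) →
      ∀ {J : Set Ordinal.{0}} {r : Raw C}, S.In J r → S.LE (r.rs γ) ((d k).rs γ) →
      S.em γ (r.rs γ) ≤ e k → (∀ η, γ ≤ η → η < δ → S.LE (r.rs η) (q.rs η)) →
      (∀ η, γ ≤ η → η < δ → S.Lec η (S.em η (r.rs η)) (r.f η) (g η)) →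
      ∀ η < δ, S.Lec η (S.em η (r.rs η)) (r.f η) ((d k).f η) := by
    intro δ k hA hB J r hr hrd hre hrq hrg η hη
    rcases lt_or_ge η γ with h | h
    · have h1 := hrd.2 η
      rwa [Raw.rs_rs _ h.le, Raw.rs_f_lt _ h, Raw.rs_f_lt _ h] at h1
    · have h1 : S.em η (r.rs η) ≤ S.em η (q.rs η) :=
        S.em_mono η _ _ (hA η h hη) (hr.rs η) (hrq η h hη)
      have h2 : S.em η (r.rs η) ≤ S.up γ η (e k) := by
        rw [em_le_up h (hr.rs η), Raw.rs_rs _ h]
        exact hre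
      have h3 : S.em η (r.rs η) ≤ u η k := le_inf h2 ((le_inf h1 h2).trans (hB η h hη))
      have h4 := hg η h
      exact lec_trans (hr.2.2.2 η) (okc_mono (h3.trans (le_iSup (u η) k)) h4.2.1)
        (okc_mono h3 (huok η k)) (hrg η h hη) (lec_mono h3 (h4.2.2.1 k))
  have main : ∀ δ, γ ≤ δ → S.In (Iio δ) (q.rs δ) ∧
      ∀ k, S.em δ (q.rs δ) ⊓ S.up γ δ (e k) ≤ S.em δ ((d k).rs δ) := by
    intro δ
    induction δ using WellFoundedLT.induction with
    | ind δ ih =>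
      intro hγδ
      have hA : S.In (Iio δ) (q.rs δ) := by
        refine ⟨Raw.supp_rs q δ, hcount.mono (Raw.supp_rs_sub q δ), fun β => ?_, fun β => ?_⟩
        · rcases lt_or_ge β δ with h | h
          · rw [Raw.rs_f_lt _ h]
            exact hcode β
          · rw [Raw.rs_f_ge _ h]
            exact S.ζ_pos β
        · rcases lt_or_ge β δ with h | h
          · rw [Raw.rs_f_lt _ h, Raw.rs_rs _ h.le]
            rcases lt_or_ge β γ with h1 | h1
            · rw [hqlt h1, hqrs h1.le]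
              exact hc.2.2.2 β
            · rw [hqge h1]
              obtain ⟨h2, h3⟩ := ih β h h1
              exact okc_mono (cover β h1 h2 h3) (hg β h1).2.1
          · rw [Raw.rs_f_ge _ h]
            exact okc_zero S β _
      refine ⟨hA, fun k => ?_⟩
      refine (S.den δ).le_of fun r hr => ?_
      refine (S.den δ).em_le_of fun r' hr' => ?_
      have h1 : S.em δ r'.1 ≤ S.em δ (q.rs δ) ⊓ S.up γ δ (e k) := ((S.den δ).mono hr').trans hr
      have h2 : S.em δ r'.1 ⊓ S.em δ (q.rs δ) ≠ ⊥ := by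
        rw [inf_eq_left.2 (h1.trans inf_le_left)]
        exact S.em_ne δ _ r'.2
      obtain ⟨r₁, hr₁, hr₁r, hr₁q⟩ := S.em_compat δ _ _ r'.2 hA h2
      have h3 : S.em γ (r₁.rs γ) ≤ e k := by
        rw [← em_le_up hγδ hr₁]
        exact (S.em_mono δ _ _ r'.2 hr₁ hr₁r).trans (h1.trans inf_le_right)
      have h4 : S.em γ (r₁.rs γ) ⊓ S.em γ ((d k).rs γ) ≠ ⊥ := by
        rw [inf_eq_left.2 (h3.trans (hed k))]
        exact S.em_ne γ _ (hr₁.rs γ)
      obtain ⟨r₀, hr₀, hr₀1, hr₀d⟩ := S.em_compat γ _ _ (hr₁.rs γ) ((hd k).rs γ) h4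
      have hsub : r₀.supp ⊆ Iio δ := hr₀.1.trans fun x hx => lt_of_lt_of_le hx hγδ
      have hr₂ : S.In (Iio δ) (r₀.am r₁ γ) := am_In hr₁ hr₀ hsub hr₀1
      have hr₂1 : S.LE (r₀.am r₁ γ) r₁ := am_le hr₁ hr₀ hr₀1
      have hr₂q : S.LE (r₀.am r₁ γ) (q.rs δ) := letrans hr₂ hr₁ hA hr₂1 hr₁q
      have hr₂γ : (r₀.am r₁ γ).rs γ = r₀ := Raw.am_rs_self _ hr₀.1
      have hr₂d : S.LE (r₀.am r₁ γ) ((d k).rs δ) := by
        refine ⟨hr₀d.1, fun η => ?_⟩
        rcases lt_or_ge η δ with h | h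
        · rw [Raw.rs_f_lt _ h]
          refine key δ k (fun η h5 h6 => (ih η h6 h5).1) (fun η h5 h6 => (ih η h6 h5).2 k) hr₂
            (by rw [hr₂γ]; exact hr₀d) ?_ ?_ ?_ η h
          · rw [hr₂γ]
            exact (S.em_mono γ _ _ (hr₁.rs γ) hr₀ hr₀1).trans h3
          · intro η h5 h6
            have h7 := lers hr₂q η
            rwa [Raw.rs_rs _ h6.le] at h7
          · intro η h5 h6
            have h7 := hr₂q.2 η
            rwa [Raw.rs_f_lt _ h6, hqge h5] at h7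
        · rw [Raw.rs_f_ge _ h]
          exact lec_zero (hr₂.2.2.2 η)
      intro h5
      apply S.em_ne δ _ hr₂
      rw [← le_bot_iff, ← h5]
      refine le_inf ?_ (S.em_mono δ _ _ ((hd k).rs δ) hr₂ hr₂d)
      exact (S.em_mono δ _ _ hr₁ hr₂ hr₂1).trans (S.em_mono δ _ _ r'.2 hr₁ hr₁r)
  have hcover : ∀ β, γ ≤ β → S.em β (q.rs β) ≤ ⨆ k, u β k := fun β hβ =>
    cover β hβ (main β hβ).1 (main β hβ).2
  have hqI : S.In I q := by
    refine ⟨?_, hcount, hcode, fun β => ?_⟩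
    · refine hsupp.trans (union_subset (hc.1.trans hγ) (iUnion_subset fun k => (hd k).1))
    · rcases lt_or_ge β γ with h1 | h1
      · rw [hqlt h1, hqrs h1.le]
        exact hc.2.2.2 β
      · rw [hqge h1]
        exact okc_mono (hcover β h1) (hg β h1).2.1
  refine ⟨q, hqI, hqγ, ⟨hcp.1, fun β => ?_⟩, ?_⟩
  · rcases lt_or_ge β γ with h | h
    · rw [hqlt h, hqrs h.le]
      have h1 := hcp.2 β
      rwa [Raw.rs_f_lt _ h] at h1
    · rw [hqge h]
      refine lec_mono (hcover β h) ?_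
      refine MixAux.le_iSup_fin (Rel (S.B β)) (u β) fun k => ?_
      have h1 : u β k ≤ S.em β ((d k).rs β) := inf_le_right
      have h2 : S.em β ((d k).rs β) ≤ S.em β (p.rs β) := em_rs_mono (hd k) hp (hdp k) β
      exact lec_trans (okc_mono (le_iSup (u β) k) (hg β h).2.1) (huok β k)
        (okc_mono (h1.trans h2) (hp.2.2.2 β)) ((hg β h).2.2.1 k) (lec_mono h1 ((hdp k).2 β))
  · intro r hr hrq
    have h1 : S.em γ (r.rs γ) ≤ ⨆ k, e k := by
      have h2 := em_rs_mono hr hqI hrq γ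
      rw [hqγ] at h2
      exact h2.trans hcov
    obtain ⟨r', hr', k, hk⟩ := (S.den γ).exists_em_iSup (p := ⟨r.rs γ, hr.rs γ⟩) h1
    have hk' : S.em γ r'.1 ≤ e k := hk
    have h4 : S.em γ r'.1 ⊓ S.em γ ((d k).rs γ) ≠ ⊥ := by
      rw [inf_eq_left.2 (hk'.trans (hed k))]
      exact S.em_ne γ _ r'.2
    obtain ⟨r₀, hr₀, hr₀1, hr₀d⟩ := S.em_compat γ _ _ r'.2 ((hd k).rs γ) h4
    have hr₀r : S.LE r₀ (r.rs γ) := letrans hr₀ r'.2 (hr.rs γ) hr₀1 hr'
    have hr₂ : S.In I (r₀.am r γ) := am_In hr hr₀ (hr₀.1.trans hγ) hr₀r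
    have hr₂1 : S.LE (r₀.am r γ) r := am_le hr hr₀ hr₀r
    have hr₂q : S.LE (r₀.am r γ) q := letrans hr₂ hr hqI hr₂1 hrq
    have hr₂γ : (r₀.am r γ).rs γ = r₀ := Raw.am_rs_self _ hr₀.1
    refine ⟨r₀.am r γ, hr₂, hr₂1, d k, ⟨k, rfl⟩, hr₀d.1, fun η => ?_⟩
    refine key (Order.succ η) k (fun η h5 _ => (main η h5).1) (fun η h5 _ => (main η h5).2 k) hr₂
      (by rw [hr₂γ]; exact hr₀d) ?_ ?_ ?_ η (Order.lt_succ η)
    · rw [hr₂γ]
      exact (S.em_mono γ _ _ r'.2 hr₀ hr₀1).trans hk'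
    · intro η h5 h6
      exact lers hr₂q η
    · intro η h5 h6
      have h7 := hr₂q.2 η
      rwa [hqge h5] at h7

end Pool.Agent.Lib.BSI.It
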