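import Pool.Agent.Lib.BSI.Basic

/-!
# BSI.Proj: completions of preorders and the embedding given by a projection
-/

set_option autoImplicit false

open Set

namespace Pool.Agent.Lib.BSI

universe u v u' v'

/-- `em` is the canonical map of the preorder `P` into its completion `B`. -/
structure Den {P : Type u} [Preorder P] {B : Type v} [CompleteBooleanAlgebra B] (em : P → B) : Prop where
  ne : ∀ p, em p ≠ ⊥
  mono : ∀ {p q : P}, q ≤ p → em q ≤ em p
  dense : ∀ b : B, b ≠ ⊥ → ∃ p, em p ≤ b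
  compat : ∀ p q : P, em p ⊓ em q ≠ ⊥ → ∃ r, r ≤ p ∧ r ≤ q

namespace Den

variable {P : Type u} [Preorder P] {B : Type v} [CompleteBooleanAlgebra B] {em : P → B}

theorem exists_le (h : Den em) {p : P} {b : B} (hb : em p ⊓ b ≠ ⊥) : ∃ q ≤ p, em q ≤ b := by
  obtain ⟨q, hq⟩ := h.dense _ hb
  have h1 : em p ⊓ em q ≠ ⊥ := by
    intro h2
    apply h.ne q
    rw [← le_bot_iff, ← h2]
    exact le_inf (hq.trans inf_le_left) le_rfl
  obtain ⟨r, hrp, hrq⟩ := h.compat p q h1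
  exact ⟨r, hrp, (h.mono hrq).trans (hq.trans inf_le_right)⟩

theorem em_le_of (h : Den em) {p : P} {b : B} (hp : ∀ r ≤ p, em r ⊓ b ≠ ⊥) : em p ≤ b := by
  by_contra hcon
  have h1 : em p ⊓ bᶜ ≠ ⊥ := by
    intro h2
    exact hcon (by rwa [← disjoint_iff, disjoint_compl_right_iff] at h2)
  obtain ⟨r, hr, hrb⟩ := h.exists_le h1
  apply hp r hr
  rw [← le_bot_iff, ← compl_inf_self b]
  exact inf_le_inf_right _ hrb

/-- comparison of elements through conditions -/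
theorem le_of (h : Den em) {b c : B} (hbc : ∀ p, em p ≤ b → em p ≤ c) : b ≤ c := by
  by_contra hcon
  have h1 : b ⊓ cᶜ ≠ ⊥ := by
    intro h2
    exact hcon (by rwa [← disjoint_iff, disjoint_compl_right_iff] at h2)
  obtain ⟨p, hp⟩ := h.dense _ h1
  apply h.ne p
  rw [← le_bot_iff, ← inf_compl_self c]
  exact le_inf (hbc p (hp.trans inf_le_left)) (hp.trans inf_le_right)

theorem eq_of (h : Den em) {b c : B} (hbc : ∀ p, em p ≤ b ↔ em p ≤ c) : b = c :=
  le_antisymm (h.le_of fun p hp => (hbc p).1 hp) (h.le_of fun p hp => (hbc p).2 hp)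

theorem exists_em_iSup (h : Den em) {ι : Sort*} {p : P} {t : ι → B} (ht : em p ≤ ⨆ i, t i) :
    ∃ q ≤ p, ∃ i, em q ≤ t i := by
  by_contra hcon
  push Not at hcon
  have h1 : em p ⊓ (⨆ i, t i) ≠ ⊥ := by
    rw [inf_eq_left.2 ht]
    exact h.ne p
  rw [inf_iSup_eq] at h1
  apply h1
  rw [iSup_eq_bot]
  intro i
  by_contra h2
  obtain ⟨q, hq, hqi⟩ := h.exists_le h2
  exact hcon q hq i hqi

theorem em_le_compl_iff (h : Den em) {p : P} {b : B} : em p ≤ bᶜ ↔ ∀ q ≤ p, ¬ em q ≤ b := by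
  constructor
  · intro h1 q hq hb
    apply h.ne q
    rw [← le_bot_iff, ← compl_inf_self b]
    exact le_inf ((h.mono hq).trans h1) hb
  · intro h1
    by_contra hcon
    have h2 : em p ⊓ b ≠ ⊥ := by
      intro h3
      exact hcon (by rwa [← disjoint_iff, ← le_compl_iff_disjoint_right] at h3)
    obtain ⟨q, hq, hqb⟩ := h.exists_le h2
    exact h1 q hq hqb

end Den

section up

variable {P : Type u} [Preorder P] {B : Type v} [CompleteBooleanAlgebra B]
variable {P' : Type u'} [Preorder P'] {B' : Type v'} [CompleteBooleanAlgebra B']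

/-- the embedding of the completion of `P'` into the completion of `P` given by `π : P → P'` -/
noncomputable def upg (em : P → B) (em' : P' → B') (π : P → P') (b : B') : B :=
  sSup (em '' {p | em' (π p) ≤ b})

variable {em : P → B} {em' : P' → B'} {π : P → P'}

theorem em_le_upg (h : Den em) (h' : Den em') (hm : ∀ p q : P, q ≤ p → π q ≤ π p)
    (hπ : ∀ (p : P) (r : P'), r ≤ π p → ∃ q ≤ p, π q ≤ r) (p : P) (b : B') :
    em p ≤ upg em em' π b ↔ em' (π p) ≤ b := by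
  constructor
  · intro h1
    apply h'.em_le_of
    intro r hr h2
    obtain ⟨q, hq, hqr⟩ := hπ p r hr
    have h3 : em q ≤ ⨆ x : {p | em' (π p) ≤ b}, em x := by
      refine (h.mono hq).trans (h1.trans ?_)
      unfold upg
      rw [sSup_image']
    obtain ⟨t, ht, ⟨x, hx⟩, htx⟩ := h.exists_em_iSup h3
    have h4 : em t ⊓ em x ≠ ⊥ := by
      rw [inf_eq_left.2 htx]
      exact h.ne t
    obtain ⟨w, hwt, hwx⟩ := h.compat t x h4
    apply h'.ne (π w)
    rw [← le_bot_iff, ← h2]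
    exact le_inf (h'.mono ((hm _ _ (hwt.trans ht)).trans hqr)) ((h'.mono (hm _ _ hwx)).trans hx)
  · intro h1
    exact le_sSup ⟨p, h1, rfl⟩

variable (h : Den em) (h' : Den em') (hm : ∀ p q : P, q ≤ p → π q ≤ π p)
  (hπ : ∀ (p : P) (r : P'), r ≤ π p → ∃ q ≤ p, π q ≤ r)

include h h' hm hπ

theorem upg_mono {b c : B'} (hbc : b ≤ c) : upg em em' π b ≤ upg em em' π c :=
  h.le_of fun p hp => (em_le_upg h h' hm hπ p c).2 (((em_le_upg h h' hm hπ p b).1 hp).trans hbc)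

theorem upg_inf (b c : B') : upg em em' π (b ⊓ c) = upg em em' π b ⊓ upg em em' π c := by
  apply h.eq_of
  intro p
  rw [em_le_upg h h' hm hπ, le_inf_iff, le_inf_iff, em_le_upg h h' hm hπ, em_le_upg h h' hm hπ]

theorem upg_top : upg em em' π ⊤ = ⊤ := by
  apply h.eq_of
  intro p
  rw [em_le_upg h h' hm hπ]
  simp

theorem upg_bot : upg em em' π ⊥ = ⊥ := by
  apply h.eq_of
  intro p
  rw [em_le_upg h h' hm hπ]
  constructor
  · intro h1
    exact absurd (le_bot_iff.1 h1) (h'.ne _)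
  · intro h1
    exact absurd (le_bot_iff.1 h1) (h.ne _)

theorem upg_compl (b : B') : upg em em' π bᶜ = (upg em em' π b)ᶜ := by
  apply h.eq_of
  intro p
  rw [em_le_upg h h' hm hπ, h.em_le_compl_iff]
  constructor
  · intro h1 q hq h2
    rw [em_le_upg h h' hm hπ] at h2
    apply h'.ne (π q)
    rw [← le_bot_iff, ← compl_inf_self b]
    exact le_inf ((h'.mono (hm _ _ hq)).trans h1) h2
  · intro h1
    rw [h'.em_le_compl_iff]
    intro r hr hrb
    obtain ⟨q, hq, hqr⟩ := hπ p r hr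
    exact h1 q hq ((em_le_upg h h' hm hπ q b).2 ((h'.mono hqr).trans hrb))

theorem upg_iSup {ι : Sort*} (b : ι → B') : upg em em' π (⨆ i, b i) = ⨆ i, upg em em' π (b i) := by
  apply le_antisymm
  · apply h.le_of
    intro p hp
    rw [em_le_upg h h' hm hπ] at hp
    apply h.em_le_of
    intro r hr h1
    have h2 : em' (π r) ≤ ⨆ i, b i := (h'.mono (hm _ _ hr)).trans hp
    obtain ⟨q', hq', i, hi⟩ := h'.exists_em_iSup h2
    obtain ⟨q, hq, hqq'⟩ := hπ r q' hq'
    apply h.ne q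
    rw [← le_bot_iff, ← h1]
    refine le_inf (h.mono hq) (le_iSup_of_le i ?_)
    rw [em_le_upg h h' hm hπ]
    exact (h'.mono hqq').trans hi
  · exact iSup_le fun i => upg_mono h h' hm hπ (le_iSup b i)

theorem upg_disjoint {b c : B'} (hbc : Disjoint b c) : Disjoint (upg em em' π b) (upg em em' π c) := by
  rw [disjoint_iff] at hbc ⊢
  rw [← upg_inf h h' hm hπ, hbc, upg_bot h h' hm hπ]

end up

namespace It

variable {C : Type} [Preorder C] {Rel : ∀ (B : Type) [CompleteBooleanAlgebra B], RelF B}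
variable (S : It C Rel)

/-- The conditions with support in `I`. -/
def Cnd (I : Set Ordinal.{0}) : Type 1 := {p : Raw C // S.In I p}

instance (I : Set Ordinal.{0}) : Preorder (S.Cnd I) where
  le q p := S.LE q.1 p.1
  le_refl p := lerefl p.2
  le_trans r q p h h' := letrans r.2 q.2 p.2 h h'

theorem Cnd.le_iff {I : Set Ordinal.{0}} {p q : S.Cnd I} : q ≤ p ↔ S.LE q.1 p.1 := Iff.rfl

/-- the canonical map -/
def emc (γ : Ordinal.{0}) (p : S.Cnd (Iio γ)) : S.B γ := S.em γ p.1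

theorem den (γ : Ordinal.{0}) : Den (S.emc γ) where
  ne p := S.em_ne γ p.1 p.2
  mono {p q} h := S.em_mono γ p.1 q.1 p.2 q.2 h
  dense b hb := by
    obtain ⟨p, hp, hpb⟩ := S.em_dense γ b hb
    exact ⟨⟨p, hp⟩, hpb⟩
  compat p q h := by
    obtain ⟨r, hr, hrp, hrq⟩ := S.em_compat γ p.1 q.1 p.2 q.2 h
    exact ⟨⟨r, hr⟩, hrp, hrq⟩

/-- restriction as a map of the conditions -/
noncomputable def res {I : Set Ordinal.{0}} (γ : Ordinal.{0}) (p : S.Cnd I) : S.Cnd (Iio γ) :=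
  ⟨p.1.rs γ, p.2.rs γ⟩

theorem res_mono {I : Set Ordinal.{0}} (γ : Ordinal.{0}) (p q : S.Cnd I) (h : q ≤ p) :
    S.res γ q ≤ S.res γ p := lers h γ

theorem res_proj {I : Set Ordinal.{0}} {γ : Ordinal.{0}} (hI : Iio γ ⊆ I) (p : S.Cnd I)
    (r : S.Cnd (Iio γ)) (h : r ≤ S.res γ p) : ∃ q ≤ p, S.res γ q ≤ r := by
  refine ⟨⟨r.1.am p.1 γ, am_In p.2 r.2 (r.2.1.trans hI) h⟩, am_le p.2 r.2 h, ?_⟩
  show S.LE ((r.1.am p.1 γ).rs γ) r.1
  rw [Raw.am_rs_self _ r.2.1]
  exact lerefl r.2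

/-- the embedding of `B γ` into `B δ` -/
noncomputable def up (γ δ : Ordinal.{0}) (b : S.B γ) : S.B δ :=
  upg (S.emc δ) (S.emc γ) (S.res γ) b

variable {S}

theorem em_le_up {γ δ : Ordinal.{0}} (hγ : γ ≤ δ) {p : Raw C} (hp : S.In (Iio δ) p) (b : S.B γ) :
    S.em δ p ≤ S.up γ δ b ↔ S.em γ (p.rs γ) ≤ b :=
  em_le_upg (S.den δ) (S.den γ) (S.res_mono γ) (S.res_proj (Iio_subset_Iio hγ)) ⟨p, hp⟩ b

theorem up_disjoint {γ δ : Ordinal.{0}} (hγ : γ ≤ δ) {b c : S.B γ} (h : Disjoint b c) :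
    Disjoint (S.up γ δ b) (S.up γ δ c) :=
  upg_disjoint (S.den δ) (S.den γ) (S.res_mono γ) (S.res_proj (Iio_subset_Iio hγ)) h

theorem up_iSup {γ δ : Ordinal.{0}} (hγ : γ ≤ δ) {ι : Sort*} (b : ι → S.B γ) :
    S.up γ δ (⨆ i, b i) = ⨆ i, S.up γ δ (b i) :=
  upg_iSup (S.den δ) (S.den γ) (S.res_mono γ) (S.res_proj (Iio_subset_Iio hγ)) b

theorem up_mono {γ δ : Ordinal.{0}} (hγ : γ ≤ δ) {b c : S.B γ} (h : b ≤ c) :
    S.up γ δ b ≤ S.up γ δ c :=
  upg_mono (S.den δ) (S.den γ) (S.res_mono γ) (S.res_proj (Iio_subset_Iio hγ)) h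

end It

end Pool.Agent.Lib.BSI
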