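import Pool.Agent.Lib.BSI.Cof
import Pool.Agent.Lib.BSI.Extra
import Pool.Agent.Lib.BSM.Nice

/-!
# BSI.Pull: nice trees over the completion of all conditions come from nice trees over some `B γ` and are special
-/

set_option autoImplicit false

open Set

namespace Pool.Agent.Lib.BSI

open Pool.Agent.Lib.BSM (V NOCH NTree)

universe u v u' v'

section up

variable {P : Type u} [Preorder P] {B : Type v} [CompleteBooleanAlgebra B]
variable {P' : Type u'} [Preorder P'] {B' : Type v'} [CompleteBooleanAlgebra B']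
variable {em : P → B} {em' : P' → B'} {π : P → P'}
variable (h : Den em) (h' : Den em') (hm : ∀ p q : P, q ≤ p → π q ≤ π p)
  (hπ : ∀ (p : P) (r : P'), r ≤ π p → ∃ q ≤ p, π q ≤ r)

include h h' hm hπ

theorem upg_sup (b c : B') : upg em em' π (b ⊔ c) = upg em em' π b ⊔ upg em em' π c := by
  have h1 : b ⊔ c = (bᶜ ⊓ cᶜ)ᶜ := by rw [compl_inf, compl_compl, compl_compl]
  rw [h1, upg_compl h h' hm hπ, upg_inf h h' hm hπ, upg_compl h h' hm hπ, upg_compl h h' hm hπ,
    compl_inf, compl_compl, compl_compl]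

theorem upg_ne_bot (hd : ∀ r : P', ∃ q : P, π q ≤ r) {b : B'} (hb : b ≠ ⊥) :
    upg em em' π b ≠ ⊥ := by
  intro h0
  obtain ⟨r, hr⟩ := h'.dense b hb
  obtain ⟨q, hq⟩ := hd r
  apply h.ne q
  rw [← le_bot_iff, ← h0, em_le_upg h h' hm hπ]
  exact (h'.mono hq).trans hr

theorem upg_le_iff (hd : ∀ r : P', ∃ q : P, π q ≤ r) {b c : B'} :
    upg em em' π b ≤ upg em em' π c ↔ b ≤ c := by
  refine ⟨fun h1 => ?_, upg_mono h h' hm hπ⟩
  by_contra hcon
  have h2 : b ⊓ cᶜ ≠ ⊥ := by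
    intro h3
    exact hcon (by rwa [← disjoint_iff, disjoint_compl_right_iff] at h3)
  apply upg_ne_bot h h' hm hπ hd h2
  rw [upg_inf h h' hm hπ, upg_compl h h' hm hπ, ← le_bot_iff,
    ← inf_compl_self (upg em em' π c)]
  exact inf_le_inf_right _ h1

end up

namespace It

variable {C : Type} [Preorder C] {Rel : ∀ (B : Type) [CompleteBooleanAlgebra B], RelF B}
variable {S : It C Rel}
variable {B : Type u} [CompleteBooleanAlgebra B] {em : S.Cnd univ → B}

theorem exists_res_le (γ : Ordinal.{0}) (r : S.Cnd (Iio γ)) : ∃ q : S.Cnd univ, S.res γ q ≤ r := by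
  refine ⟨⟨r.1, r.2.univ⟩, ?_⟩
  show S.LE (r.1.rs γ) r.1
  rw [Raw.rs_eq_self r.2.1]
  exact lerefl r.2

variable (h : Den em) (γ : Ordinal.{0})
include h

theorem upu_le_iff {b c : S.B γ} :
    upg em (S.emc γ) (S.res γ) b ≤ upg em (S.emc γ) (S.res γ) c ↔ b ≤ c :=
  upg_le_iff h (S.den γ) (S.res_mono γ) (S.res_proj (subset_univ _)) (exists_res_le γ)

theorem upu_inf (b c : S.B γ) : upg em (S.emc γ) (S.res γ) (b ⊓ c) =
    upg em (S.emc γ) (S.res γ) b ⊓ upg em (S.emc γ) (S.res γ) c :=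
  upg_inf h (S.den γ) (S.res_mono γ) (S.res_proj (subset_univ _)) b c

theorem upu_sup (b c : S.B γ) : upg em (S.emc γ) (S.res γ) (b ⊔ c) =
    upg em (S.emc γ) (S.res γ) b ⊔ upg em (S.emc γ) (S.res γ) c :=
  upg_sup h (S.den γ) (S.res_mono γ) (S.res_proj (subset_univ _)) b c

theorem upu_bot : upg em (S.emc γ) (S.res γ) (⊥ : S.B γ) = ⊥ :=
  upg_bot h (S.den γ) (S.res_mono γ) (S.res_proj (subset_univ _))

theorem upu_ne_bot {b : S.B γ} (hb : b ≠ ⊥) : upg em (S.emc γ) (S.res γ) b ≠ ⊥ :=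
  upg_ne_bot h (S.den γ) (S.res_mono γ) (S.res_proj (subset_univ _)) (exists_res_le γ) hb

theorem em_le_upu (p : S.Cnd univ) (b : S.B γ) :
    em p ≤ upg em (S.emc γ) (S.res γ) b ↔ S.em γ (p.1.rs γ) ≤ b :=
  em_le_upg h (S.den γ) (S.res_mono γ) (S.res_proj (subset_univ _)) p b

/-- `NOCH` goes down. -/
theorem noch_down {T : Type*} {lt : T → T → B} {lt' : T → T → S.B γ}
    (hlt : ∀ s t, lt s t = upg em (S.emc γ) (S.res γ) (lt' s t)) (hN : NOCH lt) : NOCH lt' := by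
  intro c hc b hb
  obtain ⟨b', hb', hne, A, hA, hAb⟩ := hN (fun s => upg em (S.emc γ) (S.res γ) (c s))
    (fun s t hst => by
      rw [hlt, hlt, ← upu_inf h, ← upu_sup h, upu_le_iff h]
      exact hc s t hst) _ (upu_ne_bot h γ hb)
  obtain ⟨p, hp⟩ := h.dense b' hne
  refine ⟨S.em γ (p.1.rs γ), ?_, S.em_ne γ _ (p.2.rs γ), A, hA, fun s hs => ?_⟩
  · rw [← em_le_upu h]
    exact hp.trans hb'
  · by_contra h0
    obtain ⟨r, hr, hrp, hrc⟩ := exists_le (p.2.rs γ) (b := c s) (by rwa [inf_comm])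
    have h1 : S.In univ (r.am p.1 γ) := am_In p.2 hr (subset_univ _) hrp
    have h2 : S.LE (r.am p.1 γ) p.1 := am_le p.2 hr hrp
    apply h.ne ⟨_, h1⟩
    rw [← le_bot_iff, ← hAb s hs]
    refine le_inf ?_ (le_trans (h.mono (p := p) (q := ⟨_, h1⟩) h2) hp)
    rw [em_le_upu h]
    show S.em γ ((r.am p.1 γ).rs γ) ≤ c s
    rw [Raw.am_rs_self _ hr.1]
    exact hrc

omit γ in
/-- Every nice tree over the completion of all conditions comes from a nice tree over some `B γ`. -/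
theorem exists_pull (N : NTree B) : ∃ (γ : Ordinal.{0}) (N' : NTree (S.B γ)),
    ∀ s t, N.lt s t = upg em (S.emc γ) (S.res γ) (N'.lt s t) := by
  obtain ⟨γ, hγ⟩ := captures h (fun x : V × V => N.lt x.1 x.2)
  choose lt' hlt' using fun s t => hγ (s, t)
  refine ⟨γ, ⟨lt', fun s t hst => ?_, fun t => ?_, fun r s t => ?_, fun r s t hrs => ?_,
    noch_down h γ hlt' N.noch⟩, hlt'⟩
  · rw [← le_bot_iff, ← upu_le_iff h, ← hlt', upu_bot h]
    exact (N.zero s t hst).le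
  · rw [← le_bot_iff, ← upu_le_iff h, ← hlt', upu_bot h]
    exact (N.irrefl t).le
  · rw [← upu_le_iff h, upu_inf h, ← hlt', ← hlt', ← hlt']
    exact N.trans r s t
  · rw [← upu_le_iff h, upu_inf h, upu_sup h, ← hlt', ← hlt', ← hlt', ← hlt']
    exact N.comp r s t hrs

omit γ in
/-- Every nice tree over the completion of all conditions is special. -/
theorem special_nice
    (hRel : ∀ (B : Type) [CompleteBooleanAlgebra B] (N : NTree B), ∃ ν : V → (Rel B).Nd,
      ∀ s t, (Rel B).lt (ν s) (ν t) = N.lt s t) (N : NTree B) :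
    ∃ F : V → ℕ → B, (∀ t, ⨆ k, F t k = ⊤) ∧ (∀ t k l, k ≠ l → F t k ⊓ F t l = ⊥) ∧
      ∀ s t k, F s k ⊓ F t k ⊓ N.lt s t = ⊥ := by
  obtain ⟨γ, N', hN'⟩ := exists_pull h N
  obtain ⟨ν, hν⟩ := hRel (S.B γ) N'
  refine ⟨fun t => gen em γ (ν t), fun t => gen_sup h γ _, fun t k l => gen_disj h γ _,
    fun s t k => ?_⟩
  rw [hN', ← hν]
  exact gen_inj h γ _ _ k

end It

end Pool.Agent.Lib.BSI
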