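import Mathlib

/-!
# BSI.Rel: the interface between the relative theory (Part I) and the iteration (Part II)

`B` is the complete Boolean algebra of the base. `RelF B` lists what the iteration needs from the relative theory:
objects `z = (A, l)` (a closed countable set `A` of nodes and a kernel `l`), `Ok b z` (`z` is a condition over `b`),
`Le b z' z` (`z' ≤ z` over `b`), `Ctl K ε b z' z` (`z'` is a controlled extension of `z` over `b`: the marginal on `A` is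
`≤ l`, the mass lost is `≤ ε`, and for all nodes `t ∉ A'` the values `< K` are taken on `A' \ A` below `t` with measure
`≤ ε`), `Win n K K' b z` (for all `t ∉ A` the values `[K, K')` are all taken on `A` below `t` with measure `≤ 2⁻ⁿ`),
`Mass c b z` (the mass is `≥ c`).
-/

set_option autoImplicit false

namespace Pool.Agent.Lib.BSI

universe u

/-- Weak distributivity. -/
def WDist (B : Type u) [CompleteBooleanAlgebra B] : Prop :=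
  ∀ (ι : Type u) (x : ℕ → ι → B) (b : B), b ≠ ⊥ → (∀ n, b ≤ ⨆ i, x n i) →
    ∃ b' ≤ b, b' ≠ ⊥ ∧ ∃ F : ℕ → Finset ι, ∀ n, b' ≤ ⨆ i ∈ F n, x n i

/-- What the iteration needs from the relative theory over `B`. -/
structure RelF (B : Type) [CompleteBooleanAlgebra B] where
  /-- the objects -/
  Obj : Type
  /-- the trivial object -/
  one : Obj
  Ok : B → Obj → Prop
  Le : B → Obj → Obj → Prop
  Ctl : ℕ → ℝ → B → Obj → Obj → Prop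
  Win : ℕ → ℕ → ℕ → B → Obj → Prop
  Mass : ℝ → B → Obj → Prop
  ok_one : ∀ b, Ok b one
  ok_mono : ∀ {b b' : B} {z : Obj}, b' ≤ b → Ok b z → Ok b' z
  le_refl : ∀ {b : B} {z : Obj}, Ok b z → Le b z z
  le_trans : ∀ {b : B} {z z' z'' : Obj}, Ok b z'' → Ok b z' → Ok b z → Le b z'' z' → Le b z' z → Le b z'' z
  le_mono : ∀ {b b' : B} {z z' : Obj}, b' ≤ b → Le b z' z → Le b' z' z
  le_sup : ∀ {b b' : B} {z z' : Obj}, Le b z' z → Le b' z' z → Le (b ⊔ b') z' z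
  le_one : ∀ {b : B} {z : Obj}, Ok b z → Le b z one
  /-- glueing finitely many objects -/
  glue : ∀ (n : ℕ) (e : Fin n → B) (z : Fin n → Obj), Pairwise (fun i j => Disjoint (e i) (e j)) →
    (∀ i, Ok (e i) (z i)) → ∃ z', Ok (⨆ i, e i) z' ∧ ∀ i, Le (e i) z' (z i)
  ctl_le : ∀ {K : ℕ} {ε : ℝ} {b : B} {z z' : Obj}, Ok b z' → Ok b z → Ctl K ε b z' z → Le b z' z
  ctl_mono : ∀ {K : ℕ} {ε : ℝ} {b b' : B} {z z' : Obj}, b' ≤ b → Ctl K ε b z' z → Ctl K ε b' z' z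
  /-- glueing finitely many controlled extensions of the same object -/
  glueC : ∀ (n : ℕ) (e : Fin n → B) (z : Fin n → Obj) (z₀ : Obj) (K : ℕ) (ε : ℝ), 0 < ε →
    Pairwise (fun i j => Disjoint (e i) (e j)) → (∀ i, Ok (e i) (z i)) → Ok (⨆ i, e i) z₀ →
    (∀ i, Ctl K (ε / 2) (e i) (z i) z₀) →
    ∃ z', Ok (⨆ i, e i) z' ∧ Ctl K ε (⨆ i, e i) z' z₀ ∧ ∀ i, Le (e i) z' (z i)
  /-- the copy lemma: `z'` is the sum of the objects `zs i` -/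
  copy : WDist B → ∀ (b : B) (z : Obj) (K : ℕ) (ε : ℝ) (D : Set (B × Obj)), b ≠ ⊥ → Ok b z → 0 < ε →
    (∀ (b₁ : B) (z₁ : Obj) (b₂ : B) (z₂ : Obj), (b₁, z₁) ∈ D → Ok b₁ z₁ → b₂ ≤ b₁ → b₂ ≠ ⊥ → Ok b₂ z₂ → Le b₂ z₂ z₁ →
      (b₂, z₂) ∈ D) →
    (∀ (b₁ : B) (z₁ : Obj), b₁ ≤ b → b₁ ≠ ⊥ → Ok b₁ z₁ → Le b₁ z₁ z →
      ∃ b₂ ≤ b₁, b₂ ≠ ⊥ ∧ ∃ z₂, Ok b₂ z₂ ∧ Le b₂ z₂ z₁ ∧ (b₂, z₂) ∈ D) →
    ∃ b' ≤ b, b' ≠ ⊥ ∧ ∃ (z' : Obj) (n : ℕ) (zs : Fin n → Obj), Ok b' z' ∧ Ctl K ε b' z' z ∧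
      (∀ i, Ok b' (zs i) ∧ Le b' (zs i) z ∧ (b', zs i) ∈ D) ∧
      ∀ (b₁ : B) (w : Obj), b₁ ≤ b' → b₁ ≠ ⊥ → Ok b₁ w → Le b₁ w z' →
        ∃ (i : Fin n) (b₂ : B) (w' : Obj), b₂ ≤ b₁ ∧ b₂ ≠ ⊥ ∧ Ok b₂ w' ∧ Le b₂ w' w ∧ Le b₂ w' (zs i)
  win_ex : ∀ {b : B} {z : Obj}, Ok b z → ∀ n K : ℕ, ∃ K', K < K' ∧ Win n K K' b z
  win_mono : ∀ {n n' K K' K'' : ℕ} {b b' : B} {z : Obj}, n' ≤ n → K' ≤ K'' → b' ≤ b → Win n K K' b z →
    Win n' K K'' b' z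
  mass_ex : ∀ {b : B} {z : Obj}, Ok b z → ∃ c : ℝ, 0 < c ∧ Mass c b z
  mass_mono : ∀ {c c' : ℝ} {b b' : B} {z : Obj}, c' ≤ c → b' ≤ b → Mass c b z → Mass c' b' z
  /-- the limit of a fusion sequence -/
  limit : ∀ (b : ℕ → B) (z : ℕ → Obj) (K : ℕ → ℕ) (ε c : ℕ → ℝ) (β : B), (∀ n, Ok (b n) (z n)) →
    (∀ n, b (n + 1) ≤ b n) → (∀ n, K n < K (n + 1)) → (∀ n, 0 < c n) → (∀ n, Mass (c n) (b n) (z n)) →
    (∀ n, 0 ≤ ε n) → (∀ n, ε n ≤ min 1 (c n) / 2 ^ (n + 2)) →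
    (∀ n, Win n (K n) (K (n + 1)) (b n) (z n)) →
    (∀ n, Ctl (K (n + 1)) (ε n) (b (n + 1)) (z (n + 1)) (z n)) → (∀ n, β ≤ b n) →
    ∃ z', Ok β z' ∧ ∀ n, Le β z' (z n)
  /-- the nodes of the tree -/
  Nd : Type
  /-- the Boolean value of `s < t` -/
  lt : Nd → Nd → B
  /-- `(b, z)` forces that the value at the node is the given number -/
  Val : B → Obj → Nd → ℕ → Prop
  val_mono : ∀ {b b' : B} {z : Obj} {t : Nd} {k : ℕ}, b' ≤ b → Val b z t k → Val b' z t k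
  val_le : ∀ {b : B} {z z' : Obj} {t : Nd} {k : ℕ}, Ok b z' → Ok b z → Le b z' z → Val b z t k → Val b z' t k
  val_ex : ∀ {b : B} {z : Obj}, b ≠ ⊥ → Ok b z → ∀ t : Nd, ∃ b' ≤ b, b' ≠ ⊥ ∧ ∃ z', Ok b' z' ∧ Le b' z' z ∧
    ∃ k, Val b' z' t k
  val_uniq : ∀ {b : B} {z : Obj} {t : Nd} {k k' : ℕ}, b ≠ ⊥ → Ok b z → Val b z t k → Val b z t k' → k = k'
  val_lt : ∀ {b : B} {z : Obj} {s t : Nd} {k k' : ℕ}, b ≠ ⊥ → Ok b z → b ≤ lt s t → Val b z s k →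
    Val b z t k' → k ≠ k'

end Pool.Agent.Lib.BSI
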